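import Pool.Agent.X258.SE.Core

/-!
Curves whose coordinates are exponential sums with coefficients of slow growth, in varieties of log
general type.
-/

set_option autoImplicit false

namespace Pool.Agent.X258.SE

open MvPolynomial Metric Set Filter Topology FF Pool.Agent.W602.GT Pool.Agent.TH143
  Pool.Agent.TH143.GT Pool.Agent.W603.BP Pool.Agent.W603.BPR Pool.Agent.W603.GR Pool.Agent.W603.PV

/-- The vectors `(b j P)_j` of the coefficients of the exponentials `exp (P (1 / w))` are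
proportional to `f`. -/
def Prop' {N : ℕ} (s : Finset (Polynomial ℂ)) (b : Fin (N + 1) → Polynomial ℂ → ℂ → ℂ)
    (f : ℂ → Fin (N + 1) → ℂ) : Prop :=
  ∀ P ∈ s, ∀ i k, ∀ᶠ w in 𝓝[≠] (0 : ℂ), f w i * b k P w = f w k * b i P w

/-- The exponentials cancel in the homogeneous coordinates of the curve `f`: all vectors
`(b j P)_j` of coefficients are proportional to `f`, and some of them are not identically zero near
the origin, so that near the origin the curve is given by the homogeneous coordinates `b j P`. -/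
structure Collapse {N : ℕ} (s : Finset (Polynomial ℂ)) (b : Fin (N + 1) → Polynomial ℂ → ℂ → ℂ)
    (f : ℂ → Fin (N + 1) → ℂ) : Prop where
  prop : ∀ P ∈ s, ∀ i k, ∀ᶠ w in 𝓝[≠] (0 : ℂ), f w i * b k P w = f w k * b i P w
  ne : ∃ P ∈ s, ∃ j, Nz (b j P)

theorem collapse_of {N d : ℕ} {s : Finset (Polynomial ℂ)}
    {b : Fin (N + 1) → Polynomial ℂ → ℂ → ℂ} {f : ℂ → Fin (N + 1) → ℂ} (h : Prop' s b f)
    (hs : ExpSums d s b f) {j : Fin (N + 1)} (hj : Nz (fun w => f w j)) : Collapse s b f := by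
  refine ⟨h, ?_⟩
  by_contra hcon
  push Not at hcon
  apply hj
  have h1 : ∀ᶠ w in 𝓝[≠] (0 : ℂ), ∀ P ∈ s, b j P w = 0 :=
    (Filter.eventually_all_finset s).2 fun P hP => not_not.1 (hcon P hP j)
  filter_upwards [h1, hs.eq j] with w h2 h3
  rw [h3]
  exact Finset.sum_eq_zero fun P hP => by rw [h2 P hP, zero_mul]

variable {N : ℕ} {p : Ideal (MvPolynomial (Fin (N + 1)) ℂ)} {Q : MvPolynomial (Fin (N + 1)) ℂ}
  {q : ℕ} {f : ℂ → Fin (N + 1) → ℂ} {d : ℕ} {s : Finset (Polynomial ℂ)}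
  {b : Fin (N + 1) → Polynomial ℂ → ℂ → ℂ} {K : Type} [Field K] [Algebra ℂ K] {w : ℕ}
  {y : Fin (N + 1) → K}

theorem fam_sums (hy : GenPt f (PB 1) K w y)
    (hf : ∀ j, AnalyticOnNhd ℂ (fun w => f w j) (PB 1)) (hne : ∀ w ∈ PB 1, f w ≠ 0)
    (hd : 0 < d) (hs : ExpSums d s b f) (hQe : Q.IsHomogeneous q)
    (hQ : ∀ w ∈ PB 1, eval (f w) Q ≠ 0) (hnf : ¬ Prop' s b f) : ∃ r : K, ¬ AllFlat Q y r := by
  classical
  obtain ⟨z0, hz0⟩ := PB_nonempty one_pos
  obtain ⟨j0, hj0⟩ := Function.ne_iff.1 (hne z0 hz0)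
  have hj0' : Nz (fun w => f w j0) := fun h => hj0 (eq_zero_on one_pos (hf j0) h z0 hz0)
  let b' : Fin (N + 1) → Polynomial ℂ → ℂ → ℂ := fun j P => if P ∈ s then b j P else fun _ => 0
  have hb' : ∀ P ∈ s, ∀ j, b' j P = b j P := fun P hP j => if_pos hP
  have hs' : ExpSums d s b' f := by
    refine ⟨fun j P hP => ?_, fun j P hP => ?_, hs.far, fun j => ?_⟩
    · rw [hb' P hP]
      exact hs.hol j P hP
    · rw [hb' P hP]
      exact hs.slow j P hP
    · filter_upwards [hs.eq j] with w hw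
      rw [hw]
      exact Finset.sum_congr rfl fun P hP => by rw [hb' P hP]
  obtain ⟨M, i1, i2, m, hm, W, h1, ⟨c, l, hc, hcQ⟩, j, k, hjk⟩ := core hd hs'
    (fun j P => by
      by_cases hP : P ∈ s
      · rw [hb' P hP]
        exact hs.hol j P hP
      · change Pun (if P ∈ s then b j P else fun _ => 0)
        rw [if_neg hP]
        exact Pun.const 0)
    (fun j P => by
      by_cases hP : P ∈ s
      · rw [hb' P hP]
        exact hs.slow j P hP
      · change SlowG d (if P ∈ s then b j P else fun _ => 0)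
        rw [if_neg hP]
        exact SlowG.const hd 0) hf hj0' hQe hQ (fun h => hnf fun P hP i k => by
      have := h P hP i k
      rwa [hb' P hP, hb' P hP] at this)
  have hFam : Fam y Q W l := ⟨fun G hG => (hy.rel G hG).trans (h1 G hG), c, hc, hcQ⟩
  have hyk : y k ≠ 0 := by
    rw [hFam.ne]
    intro h0
    apply hjk
    rw [h0, mul_zero, Polynomial.derivative_zero, mul_zero]
  refine ⟨y j / y k, fun h => hjk ?_⟩
  have h2 := h M m W l hm hFam 1 (X j) (X k) (isHomogeneous_X _ _) (isHomogeneous_X _ _)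
    (by rw [val_X]; exact hyk) (by rw [val_X, val_X])
  rwa [aeval_X, aeval_X] at h2

theorem prop_of_const (hd : 0 < d) (hs : ExpSums d s b f)
    {j0 : Fin (N + 1)} (hj0 : Nz (fun w => f w j0))
    (h : ∀ j, ∃ c : ℂ, ∀ᶠ z in 𝓝[≠] (0 : ℂ), f z j = c * f z j0) : Prop' s b f := by
  classical
  choose c hc using h
  have hc0 : c j0 ≠ 0 := by
    intro h0
    apply hj0
    filter_upwards [hc j0] with w hw
    rw [hw, h0, zero_mul]
  -- the coefficients are proportional by the independence of the exponentials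
  have hb : ∀ j, ∀ P ∈ s, ∀ᶠ w in 𝓝[≠] (0 : ℂ), b j P w - c j * b j0 P w = 0 := by
    intro j
    refine indep hd (s.sup Polynomial.natDegree) s (fun P => P)
      (fun P w => b j P w - c j * b j0 P w)
      (fun P hP n hn => Polynomial.coeff_eq_zero_of_natDegree_lt
        (lt_of_le_of_lt (Finset.le_sup (f := Polynomial.natDegree) hP) hn))
      hs.far (fun P hP => ?_) (fun P hP => ?_) ?_
    · filter_upwards [hs.hol j P hP, hs.hol j0 P hP] with w h1 h2
      exact h1.fun_sub (analyticAt_const.fun_mul h2)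
    · have h1 := (hs.slow j P hP).add hd (((SlowG.const hd (-c j))).mul (hs.slow j0 P hP))
      refine h1.congr (Eventually.of_forall fun w => ?_)
      ring
    · filter_upwards [hs.eq j, hs.eq j0, hc j] with w h1 h2 h3
      rw [h1, h2] at h3
      have h4 : ∀ P, (b j P w - c j * b j0 P w) * Complex.exp (P.eval w⁻¹) =
          b j P w * Complex.exp (P.eval w⁻¹) - c j * (b j0 P w * Complex.exp (P.eval w⁻¹)) := by
        intro P
        ring
      simp only [h4]
      rw [Finset.sum_sub_distrib, ← Finset.mul_sum, h3, sub_self]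
  intro P hP i k
  filter_upwards [hc i, hc k, hb i P hP, hb k P hP] with w h1 h2 h3 h4
  rw [h1, h2, sub_eq_zero.1 h3, sub_eq_zero.1 h4]
  ring

/-- **Strongly of log general type**, the punctured disc -/
theorem strong_disc (hp : IsHomog p) (hQ : Q.IsHomogeneous q) {G : MvPolynomial (Fin (N + 1)) ℂ}
    (hG : IsForm G) (h : SubLogGT p Q q G) (hf : PCurve p Q f) (hd : 0 < d)
    (hs : ExpSums d s b f) (hfG : ∃ z ∈ ball (0 : ℂ) 1 \ {0}, eval (f z) G ≠ 0) :
    Prop' s b f := by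
  by_contra hext
  have han := hf.an
  have hne : ∀ w ∈ PB 1, f w ≠ 0 := fun w hw => (hf.2 w (mem_disc.2 hw)).1
  have hX : ∀ z ∈ PB 1, ∀ H ∈ p, eval (f z) H = 0 := fun z hz => (hf.2 z (mem_disc.2 hz)).2.1
  have hfQ : ∀ z ∈ PB 1, eval (f z) Q ≠ 0 := fun z hz => (hf.2 z (mem_disc.2 hz)).2.2
  obtain ⟨z0, hz0⟩ := PB_nonempty one_pos
  obtain ⟨j0, hj0⟩ := Function.ne_iff.1 (hne z0 hz0)
  have hj0' : Nz (fun w => f w j0) := fun h => hj0 (eq_zero_on one_pos (han j0) h z0 hz0)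
  obtain ⟨K, i1, i2, w, y, h1, h2, h3, h4, h5⟩ := exists_closure f (PB_preconn one_pos) han
    ⟨z0, hz0, hj0⟩
  have hy : GenPt f (PB 1) K w y := ⟨h1, h2, h3, h4⟩
  rcases Nat.eq_zero_or_pos w with hw | hw
  · refine hext (prop_of_const hd hs hj0' fun j => ?_)
    obtain ⟨c, hc⟩ := h5 hw j
    exact ⟨c, ev_iff.2 ⟨1, one_pos, hc⟩⟩
  · have hsub := subVar_of_genPt hp hQ hy hX ⟨z0, hz0, hfQ z0 hz0⟩
    have hGy : W602.GT.val y G ≠ 0 := by
      intro h0
      obtain ⟨z, hz, hzG⟩ := hfG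
      exact hzG ((hy.rel G hG).1 h0 z (mem_disc.1 hz))
    obtain ⟨r, hr⟩ := fam_sums hy han hne hd hs hQ hfQ hext
    exact hr (allFlat_gt hy hQ (h K w y hw hsub hGy) r)

/-- **Strongly of log general type**, entire curves -/
theorem strong_plane (hp : IsHomog p) (hQ : Q.IsHomogeneous q) {G : MvPolynomial (Fin (N + 1)) ℂ}
    (hG : IsForm G) (h : SubLogGT p Q q G) (hf : EntireCurve p Q f) (hd : 0 < d)
    (hs : ExpSums d s b (fun w => f w⁻¹)) {z : ℂ} (hz : eval (f z) G ≠ 0) :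
    Prop' s b (fun w => f w⁻¹) := by
  by_contra hext
  obtain ⟨hdf, hne, hfQ, hnc⟩ := ent_data hf
  have hfa : ∀ j, AnalyticOnNhd ℂ (fun w => f w j) univ := fun j z _ => (hdf j).analyticAt z
  obtain ⟨j0, hj0⟩ := Function.ne_iff.1 (hne 0)
  obtain ⟨K, i1, i2, w, y, h1, h2, h3, h4, h5⟩ := exists_closure f isPreconnected_univ hfa
    ⟨0, mem_univ _, hj0⟩
  have hy : GenPt f univ K w y := ⟨h1, h2, h3, h4⟩
  rcases Nat.eq_zero_or_pos w with hw | hw
  · choose c hc using h5 hw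
    obtain ⟨s, t, j, k, hst⟩ := hnc
    apply hst
    rw [hc j s (mem_univ _), hc k t (mem_univ _), hc k s (mem_univ _), hc j t (mem_univ _)]
    ring
  · have hsub := subVar_of_genPt hp hQ hy (fun z _ => (hf.2.1 z).2.1) ⟨0, mem_univ _, hfQ 0⟩
    have hGy : W602.GT.val y G ≠ 0 := by
      intro h0
      exact hz ((hy.rel G hG).1 h0 z (mem_univ z))
    obtain ⟨r, hr⟩ := fam_sums (hy.inv hdf) (an_inv hdf) (fun w _ => hne w⁻¹) hd hs hQ
      (fun w _ => hfQ w⁻¹) hext
    exact hr (allFlat_gt (hy.inv hdf) hQ (h K w y hw hsub hGy) r)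

/-- **Log general type**, the punctured disc -/
theorem dense_disc (hQ : Q.IsHomogeneous q) (hy : FunField p Q K w y)
    (h : LogGeneralType ℂ K w (OffQ Q q y)) (hf : PCurve p Q f) (hd : 0 < d)
    (hs : ExpSums d s b f) (hz : ZDense p f (ball 0 1 \ {0})) : Prop' s b f := by
  have hset : ∀ z : ℂ, z ∈ ball (0 : ℂ) 1 \ {0} ↔ z ∈ PB 1 := fun z => mem_disc
  have hd' : ZDense p f (PB 1) := fun H hH h => hz H hH fun z hz => h z ((hset z).1 hz)
  have hgp : GenPt f (PB 1) K w y := hy.genPt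
    (fun z hz => (hf.2 z ((hset z).2 hz)).2.1) hd'
  by_contra hext
  obtain ⟨r, hr⟩ := fam_sums hgp hf.an (fun w hw => (hf.2 w ((hset w).2 hw)).1) hd hs hQ
    (fun z hz => (hf.2 z ((hset z).2 hz)).2.2) hext
  exact hr (allFlat_gt hgp hQ h r)

/-- **Log general type**, entire curves -/
theorem dense_plane (hQ : Q.IsHomogeneous q) (hy : FunField p Q K w y)
    (h : LogGeneralType ℂ K w (OffQ Q q y)) (hf : EntireCurve p Q f) (hd : 0 < d)
    (hs : ExpSums d s b (fun w => f w⁻¹)) (hz : ZDense p f univ) : Prop' s b (fun w => f w⁻¹) := by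
  by_contra hext
  obtain ⟨hdf, hne, hfQ, hnc⟩ := ent_data hf
  have hgp : GenPt f univ K w y := hy.genPt (fun z _ => (hf.2.1 z).2.1) hz
  obtain ⟨r, hr⟩ := fam_sums (hgp.inv hdf) (an_inv hdf) (fun w _ => hne w⁻¹) hd hs hQ
    (fun w _ => hfQ w⁻¹) hext
  exact hr (allFlat_gt (hgp.inv hdf) hQ h r)

theorem nz_disc (hf : PCurve p Q f) : ∃ j, Nz (fun w => f w j) := by
  obtain ⟨z0, hz0⟩ := PB_nonempty one_pos
  obtain ⟨j0, hj0⟩ := Function.ne_iff.1 (hf.2 z0 (mem_disc.2 hz0)).1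
  exact ⟨j0, fun h => hj0 (eq_zero_on one_pos (hf.an j0) h z0 hz0)⟩

theorem nz_plane (hf : EntireCurve p Q f) : ∃ j, Nz (fun w => f w⁻¹ j) := by
  obtain ⟨hdf, hne, -, -⟩ := ent_data hf
  obtain ⟨z0, hz0⟩ := PB_nonempty one_pos
  obtain ⟨j0, hj0⟩ := Function.ne_iff.1 (hne z0⁻¹)
  exact ⟨j0, fun h => hj0 (eq_zero_on one_pos (an_inv hdf j0) h z0 hz0)⟩

end Pool.Agent.X258.SE
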