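import Mathlib

/-!
Weights of finite sets of polynomials.
-/

set_option autoImplicit false

namespace Pool.Agent.X258.SE

/-- a finite set of polynomials has injective weights which are natural numbers -/
theorem exists_wt (s : Finset (Polynomial ℂ)) :
    ∃ (φ : Polynomial ℂ →+ ℚ) (K : ℕ) (c : Polynomial ℂ → ℕ),
      (∀ P ∈ s, ∀ P' ∈ s, c P = c P' → P = P') ∧ ∀ P ∈ s, (c P : ℚ) = φ P + K := by
  classical
  let T : Finset (Polynomial ℂ × Polynomial ℂ) := (s ×ˢ s).filter fun x => x.1 ≠ x.2
  obtain ⟨f, hf⟩ := Module.exists_dual_forall_apply_ne_zero (K := ℚ) (ι := T)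
    (fun x => x.1.1 - x.1.2) (fun x => by
      have h1 := x.2
      rw [Finset.mem_filter] at h1
      exact sub_ne_zero.2 h1.2)
  let D : ℕ := ∏ P ∈ s, (f P).den
  have hD : D ≠ 0 := Finset.prod_ne_zero_iff.2 fun P _ => (f P).den_nz
  have hint : ∀ P ∈ s, ∃ m : ℤ, (m : ℚ) = D * f P := by
    intro P hP
    obtain ⟨e, he⟩ : (f P).den ∣ D := Finset.dvd_prod_of_mem _ hP
    refine ⟨e * (f P).num, ?_⟩
    rw [he]
    push_cast
    have h1 := Rat.mul_den_eq_num (f P)
    rw [← h1]
    ring
  choose! m hm using hint
  let K : ℕ := ∑ P ∈ s, (m P).natAbs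
  let φ : Polynomial ℂ →+ ℚ :=
    { toFun := fun P => D * f P
      map_zero' := by rw [map_zero, mul_zero]
      map_add' := fun x y => by rw [map_add, mul_add] }
  refine ⟨φ, K, fun P => (m P + K).toNat, ?_, ?_⟩
  · intro P hP P' hP' h
    by_contra hne
    have h1 : 0 ≤ m P + K := by
      have : (m P).natAbs ≤ K := Finset.single_le_sum (f := fun P => (m P).natAbs)
        (fun _ _ => Nat.zero_le _) hP
      omega
    have h2 : 0 ≤ m P' + K := by
      have : (m P').natAbs ≤ K := Finset.single_le_sum (f := fun P => (m P).natAbs)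
        (fun _ _ => Nat.zero_le _) hP'
      omega
    have h3 : m P = m P' := by
      change (m P + K).toNat = (m P' + K).toNat at h
      omega
    have h4 := hf ⟨(P, P'), Finset.mem_filter.2 ⟨Finset.mem_product.2 ⟨hP, hP'⟩, hne⟩⟩
    apply h4
    have h5 : (D : ℚ) * f P = D * f P' := by rw [← hm P hP, ← hm P' hP', h3]
    have h6 : (D : ℚ) ≠ 0 := Nat.cast_ne_zero.2 hD
    have h7 := mul_left_cancel₀ h6 h5
    change f (P - P') = 0
    rw [map_sub, h7, sub_self]
  · intro P hP
    have h1 : 0 ≤ m P + K := by
      have : (m P).natAbs ≤ K := Finset.single_le_sum (f := fun P => (m P).natAbs)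
        (fun _ _ => Nat.zero_le _) hP
      omega
    change (((m P + K).toNat : ℕ) : ℚ) = D * f P + K
    have h2 : (((m P + K).toNat : ℤ) : ℚ) = ((m P + K : ℤ) : ℚ) := by rw [Int.toNat_of_nonneg h1]
    rw [← hm P hP]
    push_cast at h2
    exact_mod_cast h2

/-- proportionality of polynomials with vanishing Wronskian -/
theorem flat_prop {R : Type} [CommRing R] [IsDomain R] [CharZero R] {A B : Polynomial R}
    (h : Polynomial.derivative A * B = A * Polynomial.derivative B) :
    Polynomial.C (B.leadingCoeff) * A = Polynomial.C (A.coeff B.natDegree) * B := by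
  by_cases hB : B = 0
  · subst hB
    simp
  set n := B.natDegree with hn
  set E := Polynomial.C (B.leadingCoeff) * A - Polynomial.C (A.coeff n) * B with hE
  have hEn : E.coeff n = 0 := by
    rw [hE, Polynomial.coeff_sub, Polynomial.coeff_C_mul, Polynomial.coeff_C_mul,
      Polynomial.leadingCoeff]
    ring
  have hEW : Polynomial.derivative E * B = E * Polynomial.derivative B := by
    rw [hE]
    simp only [Polynomial.derivative_sub, Polynomial.derivative_mul, Polynomial.derivative_C,
      zero_mul, zero_add]
    linear_combination Polynomial.C (B.leadingCoeff) * h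
  suffices hE0 : E = 0 by
    rw [hE] at hE0
    exact sub_eq_zero.1 hE0
  by_contra hE0
  set m := E.natDegree with hm
  have hmn : m ≠ n := by
    intro hmn
    apply hE0
    rw [← Polynomial.leadingCoeff_eq_zero, Polynomial.leadingCoeff, ← hm, hmn, hEn]
  have hpos : 0 < m + n := by omega
  -- compare the coefficients of `X * (...)`
  have h1 : (Polynomial.X * Polynomial.derivative E) * B =
      E * (Polynomial.X * Polynomial.derivative B) := by
    linear_combination Polynomial.X * hEW
  have h2 := congrArg (fun p => Polynomial.coeff p (m + n)) h1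
  have hX : ∀ p : Polynomial R, (Polynomial.X * Polynomial.derivative p).natDegree ≤ p.natDegree ∧
      (Polynomial.X * Polynomial.derivative p).coeff p.natDegree =
        p.natDegree * p.leadingCoeff := by
    intro p
    have hc : ∀ k, (Polynomial.X * Polynomial.derivative p).coeff k = k * p.coeff k := by
      intro k
      rcases k with _ | k
      · rw [Polynomial.mul_coeff_zero, Polynomial.coeff_X_zero]
        simp
      · rw [Polynomial.coeff_X_mul, Polynomial.coeff_derivative]
        push_cast
        ring
    constructor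
    · rw [Polynomial.natDegree_le_iff_coeff_eq_zero]
      intro k hk
      rw [hc, Polynomial.coeff_eq_zero_of_natDegree_lt hk, mul_zero]
    · rw [hc]
      rfl
  rw [Polynomial.coeff_mul_add_eq_of_natDegree_le (hX E).1 le_rfl,
    Polynomial.coeff_mul_add_eq_of_natDegree_le le_rfl (hX B).1, (hX E).2, (hX B).2] at h2
  have h3 : (m : R) = n := by
    have h4 : (E.leadingCoeff * B.leadingCoeff) * (m : R) =
        (E.leadingCoeff * B.leadingCoeff) * n := by
      have e1 : B.coeff n = B.leadingCoeff := rfl
      have e2 : E.coeff m = E.leadingCoeff := rfl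
      rw [e1, e2] at h2
      linear_combination h2
    exact mul_left_cancel₀ (mul_ne_zero (Polynomial.leadingCoeff_ne_zero.2 hE0)
      (Polynomial.leadingCoeff_ne_zero.2 hB)) h4
  exact hmn (Nat.cast_injective h3)

/-- scaling of forms -/
theorem aeval_scale' {L : Type} [CommRing L] [Algebra ℂ L] {n : ℕ}
    {H : MvPolynomial (Fin (n + 1)) ℂ} {d : ℕ} (hH : H.IsHomogeneous d)
    (f : Fin (n + 1) → L) (c : L) :
    MvPolynomial.aeval (fun j => c * f j) H = c ^ d * MvPolynomial.aeval f H := by
  rw [MvPolynomial.aeval_def, MvPolynomial.aeval_def, MvPolynomial.eval₂_eq',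
    MvPolynomial.eval₂_eq', Finset.mul_sum]
  refine Finset.sum_congr rfl fun α hα => ?_
  have h2 : ∑ a, α a = d := by
    have := hH (MvPolynomial.mem_support_iff.1 hα)
    rw [← this, Finsupp.weight_apply, Finsupp.sum_fintype _ _ (by simp)]
    simp
  have h3 : ∏ a, (c * f a) ^ α a = c ^ d * ∏ a, f a ^ α a := by
    rw [← h2, ← Finset.prod_pow_eq_pow_sum, ← Finset.prod_mul_distrib]
    exact Finset.prod_congr rfl fun a _ => mul_pow _ _ _
  rw [h3]
  ring

end Pool.Agent.X258.SE
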