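import Pool.Agent.X258.SE.Unit
import Pool.Agent.TH143.GT.Fin

/-!
The ring of exponential sums with coefficients of slow growth, and its torus.
-/

set_option autoImplicit false

namespace Pool.Agent.X258.SE

open Filter Topology Pool.Agent.W603.BP Pool.Agent.W603.BPR Pool.Agent.TH143
open scoped AddMonoidAlgebra

/-- the germs of slow growth -/
noncomputable def Sl (d : ℕ) (hd : 0 < d) : Subalgebra ℂ An where
  carrier := {g | ∃ (f : ℂ → ℂ) (hp : Pun f), SlowG d f ∧ g = an f hp}
  mul_mem' := by
    rintro _ _ ⟨a, ha, sa, rfl⟩ ⟨b, hb, sb, rfl⟩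
    exact ⟨fun w => a w * b w, ha.mul hb, sa.mul sb, (an_mul ha hb).symm⟩
  add_mem' := by
    rintro _ _ ⟨a, ha, sa, rfl⟩ ⟨b, hb, sb, rfl⟩
    have hp : Pun (fun w => a w + b w) := by
      filter_upwards [ha, hb] with w h1 h2
      exact h1.fun_add h2
    exact ⟨fun w => a w + b w, hp, sa.add hd sb, Subtype.ext (gm_add a b).symm⟩
  algebraMap_mem' := fun c => ⟨fun _ => c, Pun.const c, SlowG.const hd c, rfl⟩

/-- the polynomials without terms of degree less than `d` -/
def Hi (d : ℕ) : AddSubgroup (Polynomial ℂ) where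
  carrier := {P | ∀ n < d, P.coeff n = 0}
  add_mem' := by
    intro a b ha hb n hn
    rw [Polynomial.coeff_add, ha n hn, hb n hn, add_zero]
  zero_mem' := fun n _ => Polynomial.coeff_zero n
  neg_mem' := by
    intro a ha n hn
    rw [Polynomial.coeff_neg, ha n hn, neg_zero]

theorem hi_ext {d : ℕ} {P Q : Hi d} (h : ∀ n, d ≤ n → (P : Polynomial ℂ).coeff n =
    (Q : Polynomial ℂ).coeff n) : P = Q := by
  apply Subtype.ext
  ext n
  rcases lt_or_ge n d with hn | hn
  · rw [P.2 n hn, Q.2 n hn]
  · exact h n hn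

/-- the exponential of a polynomial in `1 / w` -/
noncomputable def ex (P : Polynomial ℂ) : An := an (fun w => Complex.exp (P.eval w⁻¹)) (pun_exp P)

theorem ex_add (P Q : Polynomial ℂ) : ex (P + Q) = ex P * ex Q := by
  unfold ex
  rw [← an_mul, an_eq]
  refine Eventually.of_forall fun w => ?_
  rw [Polynomial.eval_add, Complex.exp_add]

theorem ex_zero : ex 0 = 1 := by
  unfold ex
  apply Subtype.ext
  rw [show ((1 : An) : Gm) = gm (fun _ => 1) from (map_one gm).symm]
  change gm _ = gm _
  rw [gm_eq]
  refine Eventually.of_forall fun w => ?_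
  rw [Polynomial.eval_zero, Complex.exp_zero]

theorem ex_ne (P : Polynomial ℂ) : ex P ≠ 0 := by
  intro h
  have h1 := ex_add P (-P)
  rw [add_neg_cancel, ex_zero, h, zero_mul] at h1
  exact one_ne_zero h1

/-- exponentials, as a character of the group of exponents -/
noncomputable def chE (d : ℕ) : Multiplicative (Hi d) →* An where
  toFun P := ex ((Multiplicative.toAdd P : Hi d) : Polynomial ℂ)
  map_one' := ex_zero
  map_mul' P Q := ex_add _ _

variable {d : ℕ} (hd : 0 < d)

/-- the formal exponential sums with coefficients of slow growth -/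
abbrev BB : Type := AddMonoidAlgebra (Sl d hd) (Hi d)

/-- the value of a formal exponential sum -/
noncomputable def ev : BB hd →ₐ[ℂ] An :=
  AddMonoidAlgebra.liftNCAlgHom (Sl d hd).val (chE d) fun _ _ => Commute.all _ _

theorem ev_single (P : Hi d) (b : Sl d hd) :
    ev hd (AddMonoidAlgebra.single P b) = (b : An) * ex (P : Polynomial ℂ) := by
  unfold ev
  rw [AddMonoidAlgebra.coe_liftNCAlgHom, AddMonoidAlgebra.liftNC_single]
  rfl

theorem sum_single' (x : BB hd) :
    ∑ P ∈ x.coeff.support, AddMonoidAlgebra.single P (x.coeff P) = x :=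
  AddMonoidAlgebra.sum_coeff_single x

theorem ev_eq (x : BB hd) :
    ev hd x = ∑ P ∈ x.coeff.support, (x.coeff P : An) * ex (P : Polynomial ℂ) := by
  conv_lhs => rw [← sum_single' hd x]
  rw [map_sum]
  exact Finset.sum_congr rfl fun P _ => ev_single hd P _

theorem ev_inj {x : BB hd} (h : ev hd x = 0) : x = 0 := by
  classical
  rw [ev_eq] at h
  choose b hb hs hxb using fun P : Hi d => (x.coeff P).2
  have h1 : ∀ᶠ w in 𝓝[≠] (0 : ℂ), ∑ P ∈ x.coeff.support,
      b P w * Complex.exp ((P : Polynomial ℂ).eval w⁻¹) = 0 := by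
    have h2 : ∑ P ∈ x.coeff.support, (x.coeff P : An) * ex (P : Polynomial ℂ) =
        an (fun w => ∑ P ∈ x.coeff.support, b P w * Complex.exp ((P : Polynomial ℂ).eval w⁻¹))
          (Pun.sum _ fun P _ => (hb P).mul (pun_exp _)) := by
      rw [an_sum _ (fun P => (hb P).mul (pun_exp _))]
      refine Finset.sum_congr rfl fun P _ => ?_
      rw [an_mul (hb P) (pun_exp _), ← hxb]
      rfl
    rw [h2, an_zero] at h
    exact h
  have h3 := indep hd (x.coeff.support.sup fun P : Hi d => (P : Polynomial ℂ).natDegree)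
    x.coeff.support
    (fun P => (P : Polynomial ℂ)) b (fun P hP n hn => Polynomial.coeff_eq_zero_of_natDegree_lt
      (lt_of_le_of_lt (Finset.le_sup (f := fun P : Hi d => (P : Polynomial ℂ).natDegree) hP) hn))
    (fun P _ P' _ hne => by
      by_contra hcon
      push Not at hcon
      exact hne (hi_ext hcon)) (fun P _ => hb P) (fun P _ => hs P) h1
  rw [← sum_single' hd x]
  refine Finset.sum_eq_zero fun P hP => ?_
  have h4 := h3 P hP
  rw [← an_zero (hb P), ← hxb] at h4
  have h5 : x.coeff P = 0 := Subtype.ext h4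
  rw [h5, AddMonoidAlgebra.single_zero]

/-- values of forms in the ring of germs -/
theorem aeval_an {N : ℕ} {f : ℂ → Fin (N + 1) → ℂ} (hf : ∀ j, Pun (fun w => f w j))
    (G : MvPolynomial (Fin (N + 1)) ℂ) :
    ∃ hG : Pun (fun w => MvPolynomial.eval (f w) G),
      MvPolynomial.aeval (fun j => an (fun w => f w j) (hf j)) G =
        an (fun w => MvPolynomial.eval (f w) G) hG := by
  induction G using MvPolynomial.induction_on with
  | C a =>
    refine ⟨by simpa using Pun.const a, ?_⟩
    rw [MvPolynomial.aeval_C, algebraMap_an, an_eq]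
    exact Eventually.of_forall fun w => by rw [MvPolynomial.eval_C]
  | add p q hp hq =>
    obtain ⟨h1, h2⟩ := hp
    obtain ⟨h3, h4⟩ := hq
    have h5 : Pun (fun w => MvPolynomial.eval (f w) (p + q)) := by
      filter_upwards [h1, h3] with w h1 h2
      simp only [map_add]
      exact h1.fun_add h2
    refine ⟨h5, ?_⟩
    rw [map_add, h2, h4]
    apply Subtype.ext
    change gm _ + gm _ = gm _
    rw [← gm_add]
    congr 1
    funext w
    rw [map_add]
  | mul_X p j hp =>
    obtain ⟨h1, h2⟩ := hp
    have h5 : Pun (fun w => MvPolynomial.eval (f w) (p * MvPolynomial.X j)) := by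
      simp only [map_mul, MvPolynomial.eval_X]
      exact h1.mul (hf j)
    refine ⟨h5, ?_⟩
    rw [map_mul, h2, MvPolynomial.aeval_X, ← an_mul, an_eq]
    exact Eventually.of_forall fun w => by rw [map_mul, MvPolynomial.eval_X]

/-- polynomials over the germs inside the group algebra of the rational numbers -/
noncomputable def io : Polynomial An →ₐ[An] AddMonoidAlgebra An ℚ :=
  Polynomial.aeval (AddMonoidAlgebra.single (1 : ℚ) (1 : An))

theorem io_monomial (n : ℕ) (a : An) :
    io (Polynomial.monomial n a) = AddMonoidAlgebra.single (n : ℚ) a := by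
  unfold io
  rw [Polynomial.aeval_monomial, AddMonoidAlgebra.single_pow, one_pow, nsmul_eq_mul, mul_one,
    Algebra.algebraMap_eq_smul_one, smul_mul_assoc, one_mul, AddMonoidAlgebra.smul_single,
    smul_eq_mul, mul_one]

theorem io_coeff (p : Polynomial An) (n : ℕ) : (io p).coeff (n : ℚ) = p.coeff n := by
  classical
  conv_lhs => rw [p.as_sum_support]
  rw [map_sum]
  simp only [io_monomial, AddMonoidAlgebra.coeff_sum, AddMonoidAlgebra.coeff_single,
    Finsupp.coe_finset_sum, Finset.sum_apply, Finsupp.single_apply, Nat.cast_inj]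
  rw [Finset.sum_ite_eq' p.support n]
  split_ifs with h
  · rfl
  · exact (Polynomial.notMem_support_iff.1 h).symm

theorem io_inj {p : Polynomial An} (h : io p = 0) : p = 0 := by
  ext n
  rw [← io_coeff, h]
  rfl

end Pool.Agent.X258.SE
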