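import Pool.Agent.X258.SE.Alg
import Pool.Agent.X258.SE.Wt

/-!
Curves whose coordinates are exponential sums with coefficients of slow growth give families of
rational curves.
-/

set_option autoImplicit false

namespace Pool.Agent.X258.SE

open Filter Topology Pool.Agent.W603.BP Pool.Agent.W603.BPR Pool.Agent.TH143
  Pool.Agent.TH143.GT
open scoped AddMonoidAlgebra

/-- The coordinates of `f` near the origin are the exponential sums
`f w j = ∑ P ∈ s, b j P w * exp (P (1 / w))` with coefficients `b j P` which are holomorphic in a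
punctured neighbourhood of the origin and grow slowly; the differences of different elements of
`s` have degree at least `d`. -/
structure ExpSums {N : ℕ} (d : ℕ) (s : Finset (Polynomial ℂ))
    (b : Fin (N + 1) → Polynomial ℂ → ℂ → ℂ) (f : ℂ → Fin (N + 1) → ℂ) : Prop where
  hol : ∀ j, ∀ P ∈ s, Pun (b j P)
  slow : ∀ j, ∀ P ∈ s, SlowG d (b j P)
  far : ∀ P ∈ s, ∀ P' ∈ s, P ≠ P' → ∃ n, d ≤ n ∧ P.coeff n ≠ P'.coeff n
  eq : ∀ j, ∀ᶠ w in 𝓝[≠] (0 : ℂ), f w j = ∑ P ∈ s, b j P w * Complex.exp (P.eval w⁻¹)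

section parts

/-- the terms of degree less than `d` -/
noncomputable def lo (d : ℕ) (P : Polynomial ℂ) : Polynomial ℂ :=
  ∑ n ∈ Finset.range d, Polynomial.monomial n (P.coeff n)

theorem lo_coeff (d : ℕ) (P : Polynomial ℂ) (n : ℕ) :
    (lo d P).coeff n = if n < d then P.coeff n else 0 := by
  unfold lo
  rw [Polynomial.finsetSum_coeff]
  simp only [Polynomial.coeff_monomial]
  rw [Finset.sum_ite_eq']
  simp only [Finset.mem_range]

/-- the terms of degree at least `d` -/
noncomputable def hi (d : ℕ) (P : Polynomial ℂ) : Hi d :=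
  ⟨P - lo d P, fun n hn => by rw [Polynomial.coeff_sub, lo_coeff, if_pos hn, sub_self]⟩

theorem hi_coeff (d : ℕ) (P : Polynomial ℂ) {n : ℕ} (hn : d ≤ n) :
    (hi d P : Polynomial ℂ).coeff n = P.coeff n := by
  change (P - lo d P).coeff n = _
  rw [Polynomial.coeff_sub, lo_coeff, if_neg (not_lt.2 hn), sub_zero]

theorem lo_add_hi (d : ℕ) (P : Polynomial ℂ) : lo d P + (hi d P : Polynomial ℂ) = P := by
  change lo d P + (P - lo d P) = P
  ring

theorem exp_split (d : ℕ) (P : Polynomial ℂ) (w : ℂ) :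
    Complex.exp (P.eval w⁻¹) = Complex.exp ((lo d P).eval w⁻¹) *
      Complex.exp ((hi d P : Polynomial ℂ).eval w⁻¹) := by
  rw [← Complex.exp_add, ← Polynomial.eval_add, lo_add_hi]

end parts

variable {d : ℕ} (hd : 0 < d)

section gr

variable (φ : Polynomial ℂ →+ ℚ)

/-- the grading by the weights, as a character -/
noncomputable def chG (d : ℕ) : Multiplicative (Hi d) →* AddMonoidAlgebra An ℚ where
  toFun P := AddMonoidAlgebra.single (φ ((Multiplicative.toAdd P : Hi d) : Polynomial ℂ))
    (ex ((Multiplicative.toAdd P : Hi d) : Polynomial ℂ))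
  map_one' := by
    change AddMonoidAlgebra.single (φ 0) (ex 0) = _
    rw [map_zero, ex_zero]
    rfl
  map_mul' P Q := by
    rw [AddMonoidAlgebra.single_mul_single, ← ex_add, ← map_add]
    rfl

/-- the one-parameter family through a formal exponential sum -/
noncomputable def gr : BB hd →ₐ[ℂ] AddMonoidAlgebra An ℚ :=
  AddMonoidAlgebra.liftNCAlgHom
    ((AddMonoidAlgebra.singleZeroAlgHom (R := ℂ) (A := An) (M := ℚ)).comp (Sl d hd).val)
    (chG φ d) fun _ _ => Commute.all _ _

theorem gr_single (P : Hi d) (b : Sl d hd) :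
    gr hd φ (AddMonoidAlgebra.single P b) =
      AddMonoidAlgebra.single (φ (P : Polynomial ℂ)) ((b : An) * ex (P : Polynomial ℂ)) := by
  unfold gr
  rw [AddMonoidAlgebra.coe_liftNCAlgHom, AddMonoidAlgebra.liftNC_single]
  change AddMonoidAlgebra.single 0 (b : An) * AddMonoidAlgebra.single _ _ = _
  rw [AddMonoidAlgebra.single_mul_single, zero_add]
  rfl

end gr

theorem grow_slow {b : ℂ → ℂ} (hb : SlowG d b) : Grow b := by
  refine ⟨1, d, zero_le_one, ?_⟩
  exact hb 1 one_pos

theorem grow_pexp (P : Polynomial ℂ) : Grow (fun w => Complex.exp (P.eval w⁻¹)) :=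
  grow_slow (slowG_exp (d := P.natDegree + 1) P fun _ hn =>
    Polynomial.coeff_eq_zero_of_natDegree_lt (by omega))

include hd in
/-- **The family of rational curves.** -/
theorem core {N : ℕ} {f : ℂ → Fin (N + 1) → ℂ} {s : Finset (Polynomial ℂ)}
    {b : Fin (N + 1) → Polynomial ℂ → ℂ → ℂ} (hs : ExpSums d s b f)
    (hb : ∀ j P, Pun (b j P)) (hsl : ∀ j P, SlowG d (b j P))
    (hf : ∀ j, AnalyticOnNhd ℂ (fun w => f w j) (PB 1)) {j0 : Fin (N + 1)}
    (hj0 : Nz (fun w => f w j0))
    {Q : MvPolynomial (Fin (N + 1)) ℂ} {q : ℕ} (hQe : Q.IsHomogeneous q)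
    (hQ : ∀ w ∈ PB 1, MvPolynomial.eval (f w) Q ≠ 0)
    (hnf : ¬ ∀ P ∈ s, ∀ i k, ∀ᶠ w in 𝓝[≠] (0 : ℂ), f w i * b k P w = f w k * b i P w) :
    ∃ (M : Type) (_ : Field M) (_ : Algebra ℂ M) (m : ℕ), Algebra.trdeg ℂ M = m ∧
      ∃ W : Fin (N + 1) → Polynomial M,
        (∀ G : MvPolynomial (Fin (N + 1)) ℂ, Pool.Agent.W602.GT.IsForm G →
          ((∀ z ∈ PB 1, MvPolynomial.eval (f z) G = 0) ↔ MvPolynomial.aeval W G = 0)) ∧
        (∃ (c : M) (k : ℕ), c ≠ 0 ∧
          MvPolynomial.aeval W Q = Polynomial.C c * Polynomial.X ^ k) ∧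
        ∃ j k, Polynomial.derivative (W j) * W k ≠ W j * Polynomial.derivative (W k) := by
  classical
  have hpf : ∀ j, Pun (fun w => f w j) := fun j => on_pun one_pos (hf j)
  -- the coefficients
  have hBp : ∀ j P, Pun (fun w => b j P w * Complex.exp ((lo d P).eval w⁻¹)) := fun j P =>
    (hb j P).mul (pun_exp _)
  have hlo : ∀ P, SlowG d (fun w => Complex.exp ((lo d P).eval w⁻¹)) := fun P =>
    slowG_exp _ fun n hn => by rw [lo_coeff, if_neg (not_lt.2 hn)]
  let Bc : Fin (N + 1) → Polynomial ℂ → Sl d hd := fun j P =>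
    ⟨an _ (hBp j P), _, hBp j P, (hsl j P).mul (hlo P), rfl⟩
  let F : Fin (N + 1) → BB hd := fun j => ∑ P ∈ s, AddMonoidAlgebra.single (hi d P) (Bc j P)
  have hevF : ∀ j, ev hd (F j) = an (fun w => f w j) (hpf j) := by
    intro j
    have h1 : an (fun w => f w j) (hpf j) =
        an (fun w => ∑ P ∈ s, (b j P w * Complex.exp ((lo d P).eval w⁻¹)) *
          Complex.exp ((hi d P : Polynomial ℂ).eval w⁻¹))
          (Pun.sum _ fun P _ => (hBp j P).mul (pun_exp _)) := by
      rw [an_eq]
      filter_upwards [hs.eq j] with w hw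
      rw [hw]
      refine Finset.sum_congr rfl fun P _ => ?_
      rw [exp_split d P w]
      ring
    rw [h1, an_sum _ (fun P => (hBp j P).mul (pun_exp _))]
    change ev hd (∑ P ∈ s, _) = _
    rw [map_sum]
    refine Finset.sum_congr rfl fun P _ => ?_
    rw [ev_single, an_mul (hBp j P) (pun_exp _)]
    rfl
  -- the weights
  obtain ⟨φ, K, c, hinj, hc⟩ := exists_wt (s.image fun P => (hi d P : Polynomial ℂ))
  let e : Polynomial ℂ → ℕ := fun P => c (hi d P : Polynomial ℂ)
  have he : ∀ P ∈ s, (e P : ℚ) = φ (hi d P : Polynomial ℂ) + K := fun P hP =>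
    hc _ (Finset.mem_image_of_mem _ hP)
  have hei : ∀ P ∈ s, ∀ P' ∈ s, e P = e P' → P = P' := by
    intro P hP P' hP' h
    have h1 := hinj _ (Finset.mem_image_of_mem _ hP) _ (Finset.mem_image_of_mem _ hP') h
    by_contra hne
    obtain ⟨n, hn, h2⟩ := hs.far P hP P' hP' hne
    apply h2
    rw [← hi_coeff d P hn, ← hi_coeff d P' hn, h1]
  let A : Fin (N + 1) → Polynomial ℂ → An := fun j P => (Bc j P : An) * ex (hi d P : Polynomial ℂ)
  let W : Fin (N + 1) → Polynomial An := fun j => ∑ P ∈ s, Polynomial.monomial (e P) (A j P)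
  have hWc : ∀ j, ∀ P ∈ s, (W j).coeff (e P) = A j P := by
    intro j P hP
    change (∑ P' ∈ s, Polynomial.monomial (e P') (A j P')).coeff (e P) = _
    rw [Polynomial.finsetSum_coeff, Finset.sum_eq_single P]
    · rw [Polynomial.coeff_monomial, if_pos rfl]
    · intro P' hP' hne
      rw [Polynomial.coeff_monomial, if_neg]
      intro h
      exact hne (hei P' hP' P hP h)
    · intro h
      exact absurd hP h
  have hW1 : ∀ j, (W j).eval 1 = an (fun w => f w j) (hpf j) := by
    intro j
    rw [← hevF j]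
    change (∑ P ∈ s, Polynomial.monomial (e P) (A j P)).eval 1 =
      ev hd (∑ P ∈ s, AddMonoidAlgebra.single (hi d P) (Bc j P))
    rw [Polynomial.eval_finsetSum, map_sum]
    refine Finset.sum_congr rfl fun P _ => ?_
    rw [Polynomial.eval_monomial, one_pow, mul_one, ev_single]
  have hio : ∀ j, io (W j) = AddMonoidAlgebra.single (K : ℚ) (1 : An) * gr hd φ (F j) := by
    intro j
    change io (∑ P ∈ s, Polynomial.monomial (e P) (A j P)) = _ *
      gr hd φ (∑ P ∈ s, AddMonoidAlgebra.single (hi d P) (Bc j P))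
    rw [map_sum, map_sum, Finset.mul_sum]
    refine Finset.sum_congr rfl fun P hP => ?_
    rw [io_monomial, gr_single, AddMonoidAlgebra.single_mul_single, one_mul, he P hP, add_comm]
  have hioG : ∀ (G : MvPolynomial (Fin (N + 1)) ℂ) (D : ℕ), G.IsHomogeneous D →
      io (MvPolynomial.aeval W G) = AddMonoidAlgebra.single (D * K : ℚ) (1 : An) *
        gr hd φ (MvPolynomial.aeval F G) := by
    intro G D hG
    have h1 : io (MvPolynomial.aeval W G) = MvPolynomial.aeval (fun j => io (W j)) G :=
      MvPolynomial.comp_aeval_apply (f := W) (io.restrictScalars ℂ) G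
    have h2 : gr hd φ (MvPolynomial.aeval F G) = MvPolynomial.aeval (fun j => gr hd φ (F j)) G :=
      MvPolynomial.comp_aeval_apply (f := F) (gr hd φ) G
    rw [h1, h2]
    simp only [hio]
    rw [aeval_scale' hG, AddMonoidAlgebra.single_pow, one_pow, nsmul_eq_mul]
  have hevG : ∀ G : MvPolynomial (Fin (N + 1)) ℂ, ∃ hG : Pun (fun w => MvPolynomial.eval (f w) G),
      ev hd (MvPolynomial.aeval F G) = an (fun w => MvPolynomial.eval (f w) G) hG := by
    intro G
    obtain ⟨hG, h1⟩ := aeval_an hpf G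
    refine ⟨hG, ?_⟩
    rw [← h1]
    have h2 : ev hd (MvPolynomial.aeval F G) = MvPolynomial.aeval (fun j => ev hd (F j)) G :=
      MvPolynomial.comp_aeval_apply (f := F) (ev hd) G
    rw [h2]
    simp only [hevF]
  have hrel : ∀ G : MvPolynomial (Fin (N + 1)) ℂ, Pool.Agent.W602.GT.IsForm G →
      ((∀ z ∈ PB 1, MvPolynomial.eval (f z) G = 0) ↔ MvPolynomial.aeval W G = 0) := by
    rintro G ⟨D, hG⟩
    constructor
    · intro h
      obtain ⟨h1, h2⟩ := hevG G
      have h3 : ev hd (MvPolynomial.aeval F G) = 0 := by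
        rw [h2, an_zero]
        exact ev_iff.2 ⟨1, one_pos, h⟩
      apply io_inj
      rw [hioG G D hG, ev_inj hd h3, map_zero, mul_zero]
    · intro h
      obtain ⟨h1, h2⟩ := aeval_an hpf G
      have h3 : (MvPolynomial.aeval W G).eval 1 =
          MvPolynomial.aeval (fun j => (W j).eval 1) G :=
        MvPolynomial.comp_aeval_apply (f := W) ((Polynomial.aeval (1 : An)).restrictScalars ℂ) G
      rw [h, Polynomial.eval_zero] at h3
      simp only [hW1] at h3
      rw [h2, eq_comm, an_zero] at h3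
      exact eq_zero_on one_pos (eval_an' hf G) h3
  -- the boundary
  have hbd : ∃ (a : An) (k : ℕ), a ≠ 0 ∧
      MvPolynomial.aeval W Q = Polynomial.C a * Polynomial.X ^ k := by
    have hgf : ∀ j, Grow (fun w => f w j) := fun j =>
      (Grow.sum s fun P _ => (grow_slow (hsl j P)).mul (grow_pexp P)).congr (hs.eq j)
    obtain ⟨g, P, hg, hgP⟩ := unit_form (eval_an' hf Q) hQ (Grow.eval hgf Q)
    have hg' : Pun (fun w => g w * Complex.exp ((lo d P).eval w⁻¹)) :=
      (Pun.mero hg).mul (pun_exp _)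
    let g' : Sl d hd := ⟨an _ hg', _, hg', (slowG_mero hd hg).mul (hlo P), rfl⟩
    obtain ⟨h1, h2⟩ := hevG Q
    have h3 : MvPolynomial.aeval F Q = AddMonoidAlgebra.single (hi d P) g' := by
      rw [← sub_eq_zero]
      apply ev_inj hd
      rw [map_sub, h2, ev_single, sub_eq_zero]
      change _ = an _ hg' * an _ (pun_exp _)
      rw [← an_mul hg' (pun_exp _), an_eq]
      filter_upwards [hgP] with w hw
      rw [hw, exp_split d P w]
      ring
    have h4 := hioG Q q hQe
    rw [h3, gr_single, AddMonoidAlgebra.single_mul_single, one_mul] at h4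
    set a : An := (g' : An) * ex (hi d P : Polynomial ℂ) with ha
    set x : ℚ := q * K + φ (hi d P : Polynomial ℂ) with hx
    have hcoef : ∀ n : ℕ, (MvPolynomial.aeval W Q).coeff n = if x = (n : ℚ) then a else 0 := by
      intro n
      rw [← io_coeff, h4, AddMonoidAlgebra.coeff_single, Finsupp.single_apply]
    have hQne : MvPolynomial.aeval W Q ≠ 0 := by
      intro h0
      obtain ⟨z0, hz0⟩ := PB_nonempty one_pos
      exact hQ z0 hz0 ((hrel Q ⟨q, hQe⟩).2 h0 z0 hz0)
    obtain ⟨n, hn⟩ : ∃ n, (MvPolynomial.aeval W Q).coeff n ≠ 0 := by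
      by_contra hcon
      push Not at hcon
      exact hQne (Polynomial.ext fun n => by rw [hcon n, Polynomial.coeff_zero])
    rw [hcoef] at hn
    have hxn : x = n := by
      by_contra hne
      rw [if_neg hne] at hn
      exact hn rfl
    rw [if_pos hxn] at hn
    refine ⟨a, n, hn, ?_⟩
    ext1 m
    rw [hcoef, hxn, Polynomial.coeff_C_mul, Polynomial.coeff_X_pow]
    simp only [Nat.cast_inj]
    by_cases hmn : m = n
    · rw [if_pos hmn.symm, if_pos hmn, mul_one]
    · rw [if_neg (Ne.symm hmn), if_neg hmn, mul_zero]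
  -- the family is not constant
  have hnc : ∃ j k, Polynomial.derivative (W j) * W k ≠ W j * Polynomial.derivative (W k) := by
    by_contra hcon
    push Not at hcon
    apply hnf
    intro P hP i k
    have hcz : CharZero An := charZero_of_injective_algebraMap (algebraMap ℂ An).injective
    have hj0' : an (fun w => f w j0) (hpf j0) ≠ 0 := fun h => hj0 ((an_zero _).1 h)
    have hW0 : W j0 ≠ 0 := by
      intro h0
      apply hj0'
      rw [← hW1, h0, Polynomial.eval_zero]
    have hlc : (W j0).leadingCoeff ≠ 0 := Polynomial.leadingCoeff_ne_zero.2 hW0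
    have hfl : ∀ j, Polynomial.C ((W j0).leadingCoeff) * W j =
        Polynomial.C ((W j).coeff (W j0).natDegree) * W j0 := fun j => flat_prop (hcon j j0)
    have h1 : ∀ j, (W j0).leadingCoeff * an (fun w => f w j) (hpf j) =
        (W j).coeff (W j0).natDegree * an (fun w => f w j0) (hpf j0) := by
      intro j
      have := congrArg (Polynomial.eval 1) (hfl j)
      rwa [Polynomial.eval_mul, Polynomial.eval_mul, Polynomial.eval_C, Polynomial.eval_C, hW1,
        hW1] at this
    have h2 : ∀ j, (W j0).leadingCoeff * A j P =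
        (W j).coeff (W j0).natDegree * A j0 P := by
      intro j
      have := congrArg (fun p => Polynomial.coeff p (e P)) (hfl j)
      simp only [Polynomial.coeff_C_mul] at this
      rwa [hWc j P hP, hWc j0 P hP] at this
    have h3 : an (fun w => f w i) (hpf i) * A k P = an (fun w => f w k) (hpf k) * A i P := by
      have h4 : ((W j0).leadingCoeff * (W j0).leadingCoeff) *
          (an (fun w => f w i) (hpf i) * A k P) =
          ((W j0).leadingCoeff * (W j0).leadingCoeff) *
          (an (fun w => f w k) (hpf k) * A i P) := by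
        linear_combination (W j0).leadingCoeff * A k P * h1 i +
          (W i).coeff (W j0).natDegree * an (fun w => f w j0) (hpf j0) * h2 k -
          (W j0).leadingCoeff * A i P * h1 k -
          (W k).coeff (W j0).natDegree * an (fun w => f w j0) (hpf j0) * h2 i
      exact mul_left_cancel₀ (mul_ne_zero hlc hlc) h4
    have h5 : ∀ j, A j P = an (b j P) (hb j P) * (ex (lo d P) * ex (hi d P : Polynomial ℂ)) := by
      intro j
      change an _ (hBp j P) * ex _ = _
      rw [an_mul (hb j P) (pun_exp _), mul_assoc]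
      rfl
    rw [h5 k, h5 i, ← mul_assoc, ← mul_assoc (an (fun w => f w k) (hpf k))] at h3
    have h6 := mul_right_cancel₀ (mul_ne_zero (ex_ne _) (ex_ne _)) h3
    rw [← an_mul, ← an_mul, an_eq] at h6
    exact h6
  obtain ⟨j, k, hjk⟩ := hnc
  obtain ⟨a, l, ha, hl⟩ := hbd
  obtain ⟨M, i1, i2, m, hm, W', h1, h2, h3⟩ := desc W (MvPolynomial.X k) (MvPolynomial.X j) Q
    ⟨1, a, l, ha, by rw [mul_one, hl]⟩ (by
      rw [MvPolynomial.aeval_X, MvPolynomial.aeval_X]
      exact hjk)
  refine ⟨M, i1, i2, m, hm, W', fun G hG => (hrel G hG).trans (h1 G).symm, h2, j, k, ?_⟩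
  rwa [MvPolynomial.aeval_X, MvPolynomial.aeval_X] at h3

end Pool.Agent.X258.SE
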