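import Pool.Agent.X258.SE.Slow

/-!
Linear independence of the exponentials of the polynomials in `1 / w` over the functions of slow
growth.
-/

set_option autoImplicit false

namespace Pool.Agent.X258.SE

open Filter Topology Pool.Agent.W603.BP

theorem zero_of_decay {H : ℂ → ℂ} (hH : Pun H) {d : ℕ} (hd : 0 < d) {C c : ℝ} (hc : 0 < c)
    (h : ∀ᶠ w in 𝓝[≠] (0 : ℂ), ‖H w‖ ≤ C * Real.exp (-(c * (‖w‖ ^ d)⁻¹))) :
    ∀ᶠ w in 𝓝[≠] (0 : ℂ), H w = 0 := by
  by_contra hn
  have hC : 0 ≤ C := by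
    obtain ⟨w, hw⟩ := h.exists
    have h1 := (norm_nonneg _).trans hw
    have h2 := Real.exp_pos (-(c * (‖w‖ ^ d)⁻¹))
    by_contra h3
    push Not at h3
    nlinarith
  have hgr : Gr H (fun _ => 1) := by
    refine ⟨C, 0, ?_⟩
    filter_upwards [h] with w hw
    rw [pow_zero, mul_one, norm_one]
    refine hw.trans ?_
    have : Real.exp (-(c * (‖w‖ ^ d)⁻¹)) ≤ 1 := by
      rw [Real.exp_le_one_iff]
      have : 0 ≤ c * (‖w‖ ^ d)⁻¹ := by positivity
      linarith
    gcongr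
  obtain ⟨C', K, hK⟩ := ((growth_mero hH (Pun.const 1) (nz_const one_ne_zero) hgr).symm hn).gr
  -- contradiction
  have ht : Tendsto (fun w : ℂ => (c * (‖w‖ ^ d)⁻¹) ^ K * Real.exp (-(c * (‖w‖ ^ d)⁻¹)))
      (𝓝[≠] 0) (𝓝 0) := by
    have h1 : Tendsto (fun w : ℂ => c * (‖w‖ ^ d)⁻¹) (𝓝[≠] 0) atTop :=
      (tendsto_inv_pow hd).const_mul_atTop hc
    exact (Real.tendsto_pow_mul_exp_neg_atTop_nhds_zero K).comp h1
  have hlt : ∀ᶠ w in 𝓝[≠] (0 : ℂ), (c * (‖w‖ ^ d)⁻¹) ^ K * Real.exp (-(c * (‖w‖ ^ d)⁻¹)) <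
      c ^ K / (|C'| * C + 1) := ht.eventually_lt_const (by positivity)
  have hball : ∀ᶠ w in 𝓝[≠] (0 : ℂ), w ∈ Metric.ball (0 : ℂ) 1 :=
    nhdsWithin_le_nhds (Metric.ball_mem_nhds (0 : ℂ) one_pos)
  have hne0 : ∀ᶠ w in 𝓝[≠] (0 : ℂ), w ≠ 0 := self_mem_nhdsWithin
  obtain ⟨w, h1, h2, h3, h4, h5⟩ := (h.and (hK.and (hlt.and (hball.and hne0)))).exists
  rw [Metric.mem_ball, dist_zero_right] at h4
  have hw : 0 < ‖w‖ := norm_pos_iff.2 h5
  have hden : 0 < |C'| * C + 1 := by positivity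
  rw [norm_one, one_mul] at h2
  have h6 : ‖w‖ ^ (d * K) ≤ ‖w‖ ^ K := pow_le_pow_of_le_one hw.le h4.le (by nlinarith)
  have h7 : ‖w‖ ^ (d * K) ≤ |C'| * C * Real.exp (-(c * (‖w‖ ^ d)⁻¹)) := by
    calc ‖w‖ ^ (d * K) ≤ ‖w‖ ^ K := h6
      _ ≤ C' * ‖H w‖ := h2
      _ ≤ |C'| * ‖H w‖ := by gcongr; exact le_abs_self _
      _ ≤ |C'| * (C * Real.exp (-(c * (‖w‖ ^ d)⁻¹))) := by gcongr
      _ = _ := by ring
  rw [lt_div_iff₀ hden, mul_pow, inv_pow, ← pow_mul] at h3
  have hp : 0 < ‖w‖ ^ (d * K) := pow_pos hw _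
  have h8 : c ^ K * (‖w‖ ^ (d * K))⁻¹ * ‖w‖ ^ (d * K) = c ^ K := by
    field_simp
  have he := Real.exp_pos (-(c * (‖w‖ ^ d)⁻¹))
  have hcK : 0 < c ^ K := by positivity
  have h9 : c ^ K * Real.exp (-(c * (‖w‖ ^ d)⁻¹)) * (|C'| * C + 1) < c ^ K * ‖w‖ ^ (d * K) := by
    have := mul_lt_mul_of_pos_right h3 hp
    calc _ = c ^ K * (‖w‖ ^ (d * K))⁻¹ * Real.exp (-(c * (‖w‖ ^ d)⁻¹)) * (|C'| * C + 1) *
          ‖w‖ ^ (d * K) := by field_simp
      _ < _ := this
  have h10 : Real.exp (-(c * (‖w‖ ^ d)⁻¹)) * (|C'| * C + 1) < ‖w‖ ^ (d * K) := by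
    rw [mul_assoc] at h9
    exact lt_of_mul_lt_mul_left h9 hcK.le
  nlinarith

/-- the `m`-th roots of unity are dense in the circle, up to `2 π / m` -/
theorem exists_root {m : ℕ} (hm : 0 < m) {u ω : ℂ} (hu : ‖u‖ = 1) (hω : ‖ω‖ = 1) :
    ∃ k < m, ‖Complex.exp (2 * Real.pi * Complex.I / m) ^ k * u - ω‖ ≤ 2 * Real.pi / m := by
  have hm' : (0 : ℝ) < m := by exact_mod_cast hm
  have hpi := Real.pi_pos
  have hu0 : u ≠ 0 := by
    rintro rfl
    simp at hu
  obtain ⟨θ, h0, h1, hθ⟩ : ∃ θ : ℝ, 0 ≤ θ ∧ θ < 2 * Real.pi ∧ ω / u = Complex.exp (θ * Complex.I) := by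
    have hn : ‖ω / u‖ = 1 := by rw [norm_div, hu, hω, div_one]
    have he : ω / u = Complex.exp (Complex.arg (ω / u) * Complex.I) := by
      have := Complex.norm_mul_exp_arg_mul_I (ω / u)
      rw [hn, Complex.ofReal_one, one_mul] at this
      exact this.symm
    rcases le_or_gt 0 (Complex.arg (ω / u)) with h | h
    · exact ⟨Complex.arg (ω / u), h, by linarith [Complex.arg_le_pi (ω / u)], he⟩
    · refine ⟨Complex.arg (ω / u) + 2 * Real.pi, by linarith [Complex.neg_pi_lt_arg (ω / u)],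
        by linarith, ?_⟩
      have h2 : Complex.exp (((Complex.arg (ω / u) + 2 * Real.pi : ℝ) : ℂ) * Complex.I) =
          Complex.exp (Complex.arg (ω / u) * Complex.I) := by
        push_cast
        rw [add_mul, Complex.exp_add, Complex.exp_two_pi_mul_I, mul_one]
      rw [h2]
      exact he
  set k := ⌊θ * m / (2 * Real.pi)⌋₊ with hk
  have hk1 : (k : ℝ) ≤ θ * m / (2 * Real.pi) := Nat.floor_le (by positivity)
  have hk2 : θ * m / (2 * Real.pi) < k + 1 := Nat.lt_floor_add_one _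
  have hkm : k < m := by
    have h2 : (k : ℝ) < m := by
      refine hk1.trans_lt ?_
      rw [div_lt_iff₀ (by positivity)]
      nlinarith
    exact_mod_cast h2
  refine ⟨k, hkm, ?_⟩
  have e1 : Complex.exp (2 * Real.pi * Complex.I / m) ^ k * u - ω =
      (Complex.exp (Complex.I * ((2 * Real.pi * k / m - θ : ℝ) : ℂ)) - 1) * ω := by
    have h2 : ω = Complex.exp (θ * Complex.I) * u := by
      rw [← hθ, div_mul_cancel₀ _ hu0]
    rw [← Complex.exp_nat_mul, h2, sub_mul, ← mul_assoc, ← Complex.exp_add, one_mul]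
    congr 3
    push_cast
    ring
  rw [e1, norm_mul, hω, mul_one]
  refine (Real.norm_exp_I_mul_ofReal_sub_one_le).trans ?_
  rw [Real.norm_eq_abs, abs_le]
  have h3 : 2 * Real.pi * k / m ≤ θ := by
    rw [le_div_iff₀ (by positivity)] at hk1
    rw [div_le_iff₀ hm']
    linarith
  have h4 : θ < 2 * Real.pi * k / m + 2 * Real.pi / m := by
    rw [div_lt_iff₀ (by positivity)] at hk2
    rw [← add_div, lt_div_iff₀ hm']
    linarith
  constructor <;> linarith [show 0 < 2 * Real.pi / m by positivity]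

theorem exists_gap {t : Finset ℂ} {f : ℂ → ℝ} (h : ∀ x ∈ t, f x < 0) :
    ∃ δ : ℝ, 0 < δ ∧ ∀ x ∈ t, f x ≤ -δ := by
  classical
  induction t using Finset.induction_on with
  | empty => exact ⟨1, one_pos, by simp⟩
  | insert a s ha ih =>
    obtain ⟨δ, hδ, h1⟩ := ih fun x hx => h x (Finset.mem_insert_of_mem hx)
    have h2 := h a (Finset.mem_insert_self a s)
    refine ⟨min δ (-f a), lt_min hδ (by linarith), fun x hx => ?_⟩
    rcases Finset.mem_insert.1 hx with rfl | hx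
    · linarith [min_le_right δ (-f x)]
    · linarith [min_le_left δ (-f a), h1 x hx]

theorem exists_bd {t : Finset ℂ} (f : ℂ → ℝ) : ∃ L : ℝ, 0 ≤ L ∧ ∀ x ∈ t, f x ≤ L := by
  classical
  induction t using Finset.induction_on with
  | empty => exact ⟨0, le_rfl, by simp⟩
  | insert a s ha ih =>
    obtain ⟨L, hL, h1⟩ := ih
    refine ⟨max L (f a), hL.trans (le_max_left _ _), fun x hx => ?_⟩
    rcases Finset.mem_insert.1 hx with rfl | hx
    · exact le_max_right _ _
    · exact (h1 x hx).trans (le_max_left _ _)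

theorem tendsto_rot {ζ : ℂ} (hζ : ‖ζ‖ = 1) :
    Tendsto (fun w : ℂ => ζ * w) (𝓝[≠] 0) (𝓝[≠] 0) := by
  have hζ0 : ζ ≠ 0 := by
    rintro rfl
    simp at hζ
  rw [tendsto_nhdsWithin_iff]
  refine ⟨?_, ?_⟩
  · have h1 : Tendsto (fun w : ℂ => ζ * w) (𝓝 0) (𝓝 (ζ * 0)) :=
      (continuous_const.mul continuous_id).tendsto 0
    rw [mul_zero] at h1
    exact h1.mono_left nhdsWithin_le_nhds
  · filter_upwards [self_mem_nhdsWithin] with w hw
    exact mul_ne_zero hζ0 hw

theorem pun_rot {f : ℂ → ℂ} (hf : Pun f) {ζ : ℂ} (hζ : ‖ζ‖ = 1) : Pun (fun w => f (ζ * w)) := by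
  filter_upwards [(tendsto_rot hζ).eventually hf] with w hw
  have h1 : AnalyticAt ℂ (fun w : ℂ => ζ * w) w := analyticAt_const.mul analyticAt_id
  exact AnalyticAt.comp (g := f) (f := fun w : ℂ => ζ * w) hw h1

/-- the case of a coefficient whose exponent has the largest modulus -/
theorem level_max {d : ℕ} (hd : 0 < d) (s : Finset ℂ) (c : ℂ → ℂ → ℂ)
    (hp : ∀ l ∈ s, Pun (c l)) (hs : ∀ l ∈ s, SlowG d (c l))
    (hrel : ∀ᶠ w in 𝓝[≠] (0 : ℂ), ∑ l ∈ s, c l w * Complex.exp (l * (w⁻¹) ^ d) = 0)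
    {l0 : ℂ} (hl0 : l0 ∈ s) (hmax : ∀ l ∈ s, ‖l‖ ≤ ‖l0‖) :
    ∀ᶠ w in 𝓝[≠] (0 : ℂ), c l0 w = 0 := by
  classical
  rcases eq_or_ne l0 0 with rfl | hne
  · have hs0 : s = {0} := by
      ext l
      rw [Finset.mem_singleton]
      constructor
      · intro hl
        have := hmax l hl
        rw [norm_zero] at this
        exact norm_le_zero_iff.1 this
      · rintro rfl
        exact hl0
    filter_upwards [hrel] with w hw
    rw [hs0, Finset.sum_singleton, zero_mul, Complex.exp_zero, mul_one] at hw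
    exact hw
  have hn0 : 0 < ‖l0‖ := norm_pos_iff.2 hne
  set ω : ℂ := (starRingEnd ℂ) l0 / ‖l0‖ with hω
  have hωn : ‖ω‖ = 1 := by
    rw [hω, norm_div, Complex.norm_conj, Complex.norm_real, norm_norm, div_self hn0.ne']
  have hl0ω : l0 * ω = ‖l0‖ := by
    rw [hω, mul_div_assoc', Complex.mul_conj, Complex.normSq_eq_norm_sq]
    push_cast
    have : ((‖l0‖ : ℝ) : ℂ) ≠ 0 := by exact_mod_cast hn0.ne'
    field_simp
  obtain ⟨δ, hδ, hgap⟩ := exists_gap (t := s.erase l0) (f := fun l => ((l - l0) * ω).re) (by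
    intro l hl
    rw [Finset.mem_erase] at hl
    rw [sub_mul, Complex.sub_re, hl0ω, Complex.ofReal_re, sub_neg]
    have h1 : ‖l * ω‖ ≤ ‖l0‖ := by
      rw [norm_mul, hωn, mul_one]
      exact hmax l hl.2
    refine lt_of_le_of_ne ((Complex.re_le_norm _).trans h1) fun h2 => hl.1 ?_
    have h3 : ‖l * ω‖ = ‖l0‖ := le_antisymm h1 (h2 ▸ Complex.re_le_norm _)
    have h4 : (l * ω).im = 0 := by
      have h5 := Complex.sq_norm (l * ω)
      rw [Complex.normSq_apply, h3, h2] at h5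
      nlinarith
    have h5 : l * ω = l0 * ω := by
      rw [hl0ω]
      exact Complex.ext (by rw [h2, Complex.ofReal_re]) (by rw [h4, Complex.ofReal_im])
    have hω0 : ω ≠ 0 := by
      intro h
      rw [h, norm_zero] at hωn
      exact zero_ne_one hωn
    exact mul_right_cancel₀ hω0 h5)
  obtain ⟨L, hL, hLb⟩ := exists_bd (t := s) (fun l => ‖l - l0‖)
  obtain ⟨m, hm⟩ := exists_nat_gt (2 * Real.pi * (2 * (L + 1)) / δ)
  have hpi := Real.pi_pos
  have hm0 : 0 < (m : ℝ) := lt_trans (by positivity) hm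
  have hm1 : 0 < m := by exact_mod_cast hm0
  have hmδ : 2 * Real.pi / m * (2 * (L + 1)) ≤ δ := by
    rw [div_lt_iff₀ hδ] at hm
    rw [div_mul_eq_mul_div, div_le_iff₀ hm0]
    linarith
  set ζ : ℂ := Complex.exp (-(2 * Real.pi * Complex.I / (m * d))) with hζ
  have hζn : ∀ k : ℕ, ‖ζ ^ k‖ = 1 := by
    intro k
    rw [norm_pow, hζ, Complex.norm_exp]
    have : (-(2 * (Real.pi : ℂ) * Complex.I / (m * d))).re = 0 := by
      have h1 : (2 * (Real.pi : ℂ) * Complex.I / (m * d)) =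
          ((2 * Real.pi / (m * d) : ℝ) : ℂ) * Complex.I := by
        push_cast
        ring
      rw [h1, Complex.neg_re, Complex.re_ofReal_mul, Complex.I_re, mul_zero, neg_zero]
    rw [this, Real.exp_zero, one_pow]
  have hζd : (ζ⁻¹) ^ d = Complex.exp (2 * Real.pi * Complex.I / m) := by
    rw [hζ, ← Complex.exp_neg, neg_neg, ← Complex.exp_nat_mul]
    congr 1
    have : (d : ℂ) ≠ 0 := by exact_mod_cast hd.ne'
    have : (m : ℂ) ≠ 0 := by exact_mod_cast hm1.ne'
    field_simp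
  set ε : ℝ := δ / (4 * m) with hε
  have hεpos : 0 < ε := by positivity
  -- the product over the rotations
  have hH : ∀ᶠ w in 𝓝[≠] (0 : ℂ), ∏ k ∈ Finset.range m, c l0 (ζ ^ k * w) = 0 := by
    apply zero_of_decay (Pun.prod _ fun k _ => pun_rot (hp l0 hl0) (hζn k)) hd
      (C := s.card) (c := δ / 4) (by positivity)
    have hA : ∀ᶠ w in 𝓝[≠] (0 : ℂ), ∀ k ∈ Finset.range m,
        (∑ l ∈ s, c l (ζ ^ k * w) * Complex.exp (l * ((ζ ^ k * w)⁻¹) ^ d) = 0) ∧
        ∀ l ∈ s, ‖c l (ζ ^ k * w)‖ ≤ Real.exp (ε * (‖w‖ ^ d)⁻¹) := by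
      refine (Filter.eventually_all_finset _).2 fun k _ => ?_
      refine ((tendsto_rot (hζn k)).eventually hrel).and ?_
      exact (Filter.eventually_all_finset _).2 fun l hl => (hs l hl).rot (hζn k) ε hεpos
    filter_upwards [hA, self_mem_nhdsWithin] with w hw hw0
    have hw0' : w ≠ 0 := hw0
    have hwn : 0 < ‖w‖ := norm_pos_iff.2 hw0'
    set ρ : ℝ := (‖w‖ ^ d)⁻¹ with hρ
    have hρ0 : 0 < ρ := by positivity
    set u : ℂ := (w⁻¹) ^ d / ρ with hu
    have hun : ‖u‖ = 1 := by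
      rw [hu, norm_div, norm_pow, norm_inv, Complex.norm_real, Real.norm_of_nonneg hρ0.le, hρ,
        inv_pow, div_self (by positivity)]
    have hwu : (w⁻¹) ^ d = u * ρ := by
      rw [hu, div_mul_cancel₀]
      exact_mod_cast hρ0.ne'
    obtain ⟨k, hk, hku⟩ := exists_root hm1 hun hωn
    obtain ⟨h1, h2⟩ := hw k (Finset.mem_range.2 hk)
    have hexp : ((ζ ^ k * w)⁻¹) ^ d = (Complex.exp (2 * Real.pi * Complex.I / m) ^ k * u) * ρ := by
      rw [mul_inv, mul_pow, hwu, ← hζd, ← inv_pow, ← pow_mul, ← pow_mul, mul_comm d k]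
      ring
    set u' : ℂ := Complex.exp (2 * Real.pi * Complex.I / m) ^ k * u with hu'
    -- the bound at the good rotation
    have hgood : ‖c l0 (ζ ^ k * w)‖ ≤ s.card * (Real.exp (ε * ρ) * Real.exp (-(δ / 2 * ρ))) := by
      rw [← Finset.add_sum_erase s _ hl0] at h1
      have h3 : c l0 (ζ ^ k * w) =
          -∑ l ∈ s.erase l0, c l (ζ ^ k * w) * Complex.exp ((l - l0) * u' * ρ) := by
        have h4 : Complex.exp (l0 * ((ζ ^ k * w)⁻¹) ^ d) ≠ 0 := Complex.exp_ne_zero _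
        apply mul_right_cancel₀ h4
        rw [neg_mul, Finset.sum_mul]
        have h5 : ∑ l ∈ s.erase l0, c l (ζ ^ k * w) * Complex.exp ((l - l0) * u' * ρ) *
            Complex.exp (l0 * ((ζ ^ k * w)⁻¹) ^ d) =
            ∑ l ∈ s.erase l0, c l (ζ ^ k * w) * Complex.exp (l * ((ζ ^ k * w)⁻¹) ^ d) := by
          refine Finset.sum_congr rfl fun l _ => ?_
          rw [mul_assoc, ← Complex.exp_add, hexp]
          congr 2
          ring
        rw [h5]
        linear_combination h1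
      rw [h3, norm_neg]
      refine (norm_sum_le _ _).trans ?_
      calc ∑ l ∈ s.erase l0, ‖c l (ζ ^ k * w) * Complex.exp ((l - l0) * u' * ρ)‖
          ≤ ∑ l ∈ s.erase l0, Real.exp (ε * ρ) * Real.exp (-(δ / 2 * ρ)) := by
            refine Finset.sum_le_sum fun l hl => ?_
            have hls := (Finset.mem_erase.1 hl).2
            rw [norm_mul, Complex.norm_exp]
            gcongr
            · exact h2 l hls
            · have h6 : ((l - l0) * u').re ≤ -(δ / 2) := by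
                have h7 : (l - l0) * u' = (l - l0) * ω + (l - l0) * (u' - ω) := by ring
                rw [h7, Complex.add_re]
                have h8 : ((l - l0) * (u' - ω)).re ≤ L * (2 * Real.pi / m) := by
                  refine (Complex.re_le_norm _).trans ?_
                  rw [norm_mul]
                  gcongr
                  exact hLb l hls
                have h9 := hgap l hl
                have h10 : 0 < 2 * Real.pi / m := by positivity
                nlinarith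
              have h11 : ((l - l0) * u' * (ρ : ℂ)).re = ((l - l0) * u').re * ρ := by
                rw [Complex.re_mul_ofReal]
              rw [h11]
              nlinarith
        _ = (s.erase l0).card * (Real.exp (ε * ρ) * Real.exp (-(δ / 2 * ρ))) := by
            rw [Finset.sum_const, nsmul_eq_mul]
        _ ≤ s.card * (Real.exp (ε * ρ) * Real.exp (-(δ / 2 * ρ))) := by
            gcongr
            exact Finset.erase_subset _ _
    rw [norm_prod, ← Finset.mul_prod_erase _ _ (Finset.mem_range.2 hk)]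
    have hrest : ∏ j ∈ (Finset.range m).erase k, ‖c l0 (ζ ^ j * w)‖ ≤
        Real.exp (ε * ρ) ^ (m - 1) := by
      have hcard : ((Finset.range m).erase k).card = m - 1 := by
        rw [Finset.card_erase_of_mem (Finset.mem_range.2 hk), Finset.card_range]
      rw [← hcard, ← Finset.prod_const]
      exact Finset.prod_le_prod (fun _ _ => norm_nonneg _) fun j hj =>
        (hw j (Finset.mem_erase.1 hj).2).2 l0 hl0
    have hprod0 : 0 ≤ ∏ j ∈ (Finset.range m).erase k, ‖c l0 (ζ ^ j * w)‖ :=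
      Finset.prod_nonneg fun _ _ => norm_nonneg _
    calc ‖c l0 (ζ ^ k * w)‖ * ∏ j ∈ (Finset.range m).erase k, ‖c l0 (ζ ^ j * w)‖
        ≤ (s.card * (Real.exp (ε * ρ) * Real.exp (-(δ / 2 * ρ)))) *
          Real.exp (ε * ρ) ^ (m - 1) := mul_le_mul hgood hrest hprod0
            (mul_nonneg (Nat.cast_nonneg _) (mul_nonneg (Real.exp_pos _).le (Real.exp_pos _).le))
      _ = s.card * (Real.exp (ε * ρ) ^ m * Real.exp (-(δ / 2 * ρ))) := by
          obtain ⟨m', rfl⟩ : ∃ m', m = m' + 1 := ⟨m - 1, by omega⟩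
          rw [Nat.add_sub_cancel, pow_succ]
          ring
      _ = s.card * Real.exp (-(δ / 4 * ρ)) := by
          rw [← Real.exp_nat_mul, ← Real.exp_add]
          congr 2
          rw [hε]
          field_simp
          ring
  -- one factor vanishes
  have hzero : ∀ n, (∀ᶠ w in 𝓝[≠] (0 : ℂ), ∏ k ∈ Finset.range n, c l0 (ζ ^ k * w) = 0) →
      ∃ k, ∀ᶠ w in 𝓝[≠] (0 : ℂ), c l0 (ζ ^ k * w) = 0 := by
    intro n
    induction n with
    | zero =>
      intro h
      obtain ⟨w, hw⟩ := h.exists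
      simp at hw
    | succ n ih =>
      intro h
      simp only [Finset.prod_range_succ] at h
      rcases pun_mul_zero (Pun.prod _ fun k _ => pun_rot (hp l0 hl0) (hζn k))
        (pun_rot (hp l0 hl0) (hζn n)) h with h1 | h1
      · exact ih h1
      · exact ⟨n, h1⟩
  obtain ⟨k, hk⟩ := hzero m hH
  have hinv : ‖(ζ ^ k)⁻¹‖ = 1 := by rw [norm_inv, hζn, inv_one]
  filter_upwards [(tendsto_rot hinv).eventually hk] with w hw
  have : ζ ^ k ≠ 0 := by
    intro h
    have := hζn k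
    rw [h, norm_zero] at this
    exact zero_ne_one this
  rw [mul_inv_cancel_left₀ this] at hw
  exact hw

/-- **The exponentials of multiples of `w ^ (-d)` are linearly independent over the functions of
slow growth.** -/
theorem level {d : ℕ} (hd : 0 < d) (s : Finset ℂ) : ∀ (c : ℂ → ℂ → ℂ),
    (∀ l ∈ s, Pun (c l)) → (∀ l ∈ s, SlowG d (c l)) →
    (∀ᶠ w in 𝓝[≠] (0 : ℂ), ∑ l ∈ s, c l w * Complex.exp (l * (w⁻¹) ^ d) = 0) →
    ∀ l ∈ s, ∀ᶠ w in 𝓝[≠] (0 : ℂ), c l w = 0 := by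
  classical
  induction s using Finset.strongInduction with
  | H s ih =>
    intro c hp hs hrel l hl
    obtain ⟨l0, hl0, hmax⟩ := s.exists_max_image (fun l => ‖l‖) ⟨l, hl⟩
    have h0 := level_max hd s c hp hs hrel hl0 hmax
    by_cases hll : l = l0
    · rw [hll]
      exact h0
    · refine ih (s.erase l0) (Finset.erase_ssubset hl0) c
        (fun l hl => hp l (Finset.mem_erase.1 hl).2)
        (fun l hl => hs l (Finset.mem_erase.1 hl).2) ?_ l (Finset.mem_erase.2 ⟨hll, hl⟩)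
      filter_upwards [hrel, h0] with w h1 h2
      rw [← Finset.add_sum_erase s _ hl0, h2, zero_mul, zero_add] at h1
      exact h1

end Pool.Agent.X258.SE
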