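import Pool.Agent.W603.BP.RAn

/-!
Functions of slow growth near an isolated singularity, and the linear independence over them of the
exponentials of polynomials in `1 / w`.
-/

set_option autoImplicit false

namespace Pool.Agent.X258.SE

open Filter Topology Pool.Agent.W603.BP

/-- The growth of `b` at the origin is slower than that of `exp (|w| ^ (-d))`. -/
def SlowG (d : ℕ) (b : ℂ → ℂ) : Prop :=
  ∀ ε : ℝ, 0 < ε → ∀ᶠ w in 𝓝[≠] (0 : ℂ), ‖b w‖ ≤ Real.exp (ε * (‖w‖ ^ d)⁻¹)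

theorem tendsto_inv_pow {d : ℕ} (hd : 0 < d) :
    Tendsto (fun w : ℂ => (‖w‖ ^ d)⁻¹) (𝓝[≠] 0) atTop := by
  apply Tendsto.inv_tendsto_nhdsGT_zero
  rw [tendsto_nhdsWithin_iff]
  refine ⟨?_, ?_⟩
  · have h1 : Tendsto (fun w : ℂ => ‖w‖ ^ d) (𝓝 0) (𝓝 (‖(0 : ℂ)‖ ^ d)) :=
      (continuous_norm.pow d).tendsto 0
    rw [norm_zero, zero_pow hd.ne'] at h1
    exact h1.mono_left nhdsWithin_le_nhds
  · filter_upwards [self_mem_nhdsWithin] with w hw
    exact pow_pos (norm_pos_iff.2 hw) d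

theorem ev_ge {d : ℕ} (hd : 0 < d) (C : ℝ) : ∀ᶠ w in 𝓝[≠] (0 : ℂ), C ≤ (‖w‖ ^ d)⁻¹ :=
  (tendsto_inv_pow hd).eventually_ge_atTop C

theorem SlowG.const {d : ℕ} (hd : 0 < d) (c : ℂ) : SlowG d (fun _ => c) := by
  intro ε hε
  filter_upwards [ev_ge hd (‖c‖ / ε)] with w hw
  rw [div_le_iff₀ hε] at hw
  calc ‖c‖ ≤ ε * (‖w‖ ^ d)⁻¹ := by linarith
    _ ≤ Real.exp (ε * (‖w‖ ^ d)⁻¹) := by
      have := Real.add_one_le_exp (ε * (‖w‖ ^ d)⁻¹)
      linarith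

theorem SlowG.mul {d : ℕ} {a b : ℂ → ℂ} (ha : SlowG d a) (hb : SlowG d b) :
    SlowG d (fun w => a w * b w) := by
  intro ε hε
  filter_upwards [ha (ε / 2) (by positivity), hb (ε / 2) (by positivity)] with w h1 h2
  rw [norm_mul]
  calc ‖a w‖ * ‖b w‖ ≤ Real.exp (ε / 2 * (‖w‖ ^ d)⁻¹) * Real.exp (ε / 2 * (‖w‖ ^ d)⁻¹) := by
        gcongr
    _ = Real.exp (ε * (‖w‖ ^ d)⁻¹) := by
      rw [← Real.exp_add]
      congr 1
      ring

theorem SlowG.add {d : ℕ} (hd : 0 < d) {a b : ℂ → ℂ} (ha : SlowG d a) (hb : SlowG d b) :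
    SlowG d (fun w => a w + b w) := by
  intro ε hε
  filter_upwards [ha (ε / 2) (by positivity), hb (ε / 2) (by positivity),
    ev_ge hd (2 / ε)] with w h1 h2 h3
  rw [div_le_iff₀ hε] at h3
  have h4 : (2 : ℝ) ≤ Real.exp (ε / 2 * (‖w‖ ^ d)⁻¹) := by
    have := Real.add_one_le_exp (ε / 2 * (‖w‖ ^ d)⁻¹)
    linarith
  calc ‖a w + b w‖ ≤ ‖a w‖ + ‖b w‖ := norm_add_le _ _
    _ ≤ 2 * Real.exp (ε / 2 * (‖w‖ ^ d)⁻¹) := by linarith
    _ ≤ Real.exp (ε / 2 * (‖w‖ ^ d)⁻¹) * Real.exp (ε / 2 * (‖w‖ ^ d)⁻¹) := by gcongr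
    _ = Real.exp (ε * (‖w‖ ^ d)⁻¹) := by
      rw [← Real.exp_add]
      congr 1
      ring

theorem SlowG.congr {d : ℕ} {a b : ℂ → ℂ} (ha : SlowG d a)
    (h : ∀ᶠ w in 𝓝[≠] (0 : ℂ), b w = a w) : SlowG d b := by
  intro ε hε
  filter_upwards [ha ε hε, h] with w h1 h2
  rw [h2]
  exact h1

theorem SlowG.prod {d : ℕ} (hd : 0 < d) {ι : Type} (s : Finset ι) {f : ι → ℂ → ℂ}
    (hf : ∀ i ∈ s, SlowG d (f i)) : SlowG d (fun w => ∏ i ∈ s, f i w) := by
  classical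
  induction s using Finset.induction_on with
  | empty =>
    simp only [Finset.prod_empty]
    exact SlowG.const hd 1
  | insert a s ha ih =>
    simp only [Finset.prod_insert ha]
    exact (hf a (Finset.mem_insert_self a s)).mul
      (ih fun i hi => hf i (Finset.mem_insert_of_mem hi))

theorem SlowG.sum {d : ℕ} (hd : 0 < d) {ι : Type} (s : Finset ι) {f : ι → ℂ → ℂ}
    (hf : ∀ i ∈ s, SlowG d (f i)) : SlowG d (fun w => ∑ i ∈ s, f i w) := by
  classical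
  induction s using Finset.induction_on with
  | empty =>
    simp only [Finset.sum_empty]
    exact SlowG.const hd 0
  | insert a s ha ih =>
    simp only [Finset.sum_insert ha]
    exact (hf a (Finset.mem_insert_self a s)).add hd
      (ih fun i hi => hf i (Finset.mem_insert_of_mem hi))

theorem SlowG.mono {d e : ℕ} (hde : d ≤ e) {a : ℂ → ℂ} (ha : SlowG d a) : SlowG e a := by
  intro ε hε
  filter_upwards [ha ε hε, nhdsWithin_le_nhds (Metric.ball_mem_nhds (0 : ℂ) one_pos),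
    self_mem_nhdsWithin] with w h1 h2 h3
  refine h1.trans ?_
  rw [Metric.mem_ball, dist_zero_right] at h2
  have hw : 0 < ‖w‖ := norm_pos_iff.2 h3
  rw [Real.exp_le_exp]
  have : (‖w‖ ^ d)⁻¹ ≤ (‖w‖ ^ e)⁻¹ := by
    apply inv_anti₀ (pow_pos hw e)
    exact pow_le_pow_of_le_one hw.le h2.le hde
  gcongr

/-- the exponential of a polynomial in `1 / w` of degree less than `d` -/
theorem slowG_exp {d : ℕ} (P : Polynomial ℂ) (hP : ∀ n, d ≤ n → P.coeff n = 0) :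
    SlowG d (fun w => Complex.exp (P.eval w⁻¹)) := by
  intro ε hε
  -- the bound for the monomials
  have hmon : ∀ n ∈ P.support, ∀ᶠ w in 𝓝[≠] (0 : ℂ),
      ‖P.coeff n * (w⁻¹) ^ n‖ ≤ ε / (P.support.card + 1) * (‖w‖ ^ d)⁻¹ := by
    intro n hn
    have hnd : n < d := by
      by_contra h
      exact (Polynomial.mem_support_iff.1 hn) (hP n (not_lt.1 h))
    have hpos : 0 < ε / ((P.support.card : ℝ) + 1) := by positivity
    filter_upwards [ev_ge (d := d - n) (by omega) (‖P.coeff n‖ / (ε / (P.support.card + 1))),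
      self_mem_nhdsWithin] with w h1 h2
    have hw : 0 < ‖w‖ := norm_pos_iff.2 h2
    rw [div_le_iff₀ hpos] at h1
    rw [norm_mul, norm_pow, norm_inv]
    have h3 : (‖w‖ ^ d)⁻¹ = (‖w‖ ^ (d - n))⁻¹ * (‖w‖⁻¹) ^ n := by
      rw [inv_pow, ← mul_inv, ← pow_add]
      congr 2
      omega
    rw [h3, ← mul_assoc]
    gcongr
    linarith
  have hall : ∀ᶠ w in 𝓝[≠] (0 : ℂ), ∀ n ∈ P.support,
      ‖P.coeff n * (w⁻¹) ^ n‖ ≤ ε / (P.support.card + 1) * (‖w‖ ^ d)⁻¹ :=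
    (Filter.eventually_all_finset _).2 hmon
  filter_upwards [hall] with w hw
  rw [Complex.norm_exp, Real.exp_le_exp]
  calc (P.eval w⁻¹).re ≤ ‖P.eval w⁻¹‖ := Complex.re_le_norm _
    _ = ‖∑ n ∈ P.support, P.coeff n * (w⁻¹) ^ n‖ := by
      rw [Polynomial.eval_eq_sum, Polynomial.sum]
    _ ≤ ∑ n ∈ P.support, ‖P.coeff n * (w⁻¹) ^ n‖ := norm_sum_le _ _
    _ ≤ ∑ n ∈ P.support, ε / (P.support.card + 1) * (‖w‖ ^ d)⁻¹ := Finset.sum_le_sum hw
    _ = P.support.card * (ε / (P.support.card + 1) * (‖w‖ ^ d)⁻¹) := by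
      rw [Finset.sum_const, nsmul_eq_mul]
    _ = (P.support.card / (P.support.card + 1)) * (ε * (‖w‖ ^ d)⁻¹) := by ring
    _ ≤ 1 * (ε * (‖w‖ ^ d)⁻¹) := by
      have h5 : (P.support.card : ℝ) / (P.support.card + 1) ≤ 1 := by
        rw [div_le_one (by positivity)]
        linarith
      have : 0 ≤ ε * (‖w‖ ^ d)⁻¹ := by positivity
      gcongr
    _ = ε * (‖w‖ ^ d)⁻¹ := one_mul _

/-- slow growth is invariant under rotations -/
theorem SlowG.rot {d : ℕ} {a : ℂ → ℂ} (ha : SlowG d a) {ζ : ℂ} (hζ : ‖ζ‖ = 1) :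
    SlowG d (fun w => a (ζ * w)) := by
  intro ε hε
  have hζ0 : ζ ≠ 0 := by
    rintro rfl
    simp at hζ
  have ht : Tendsto (fun w : ℂ => ζ * w) (𝓝[≠] 0) (𝓝[≠] 0) := by
    rw [tendsto_nhdsWithin_iff]
    refine ⟨?_, ?_⟩
    · have h1 : Tendsto (fun w : ℂ => ζ * w) (𝓝 0) (𝓝 (ζ * 0)) :=
        (continuous_const.mul continuous_id).tendsto 0
      rw [mul_zero] at h1
      exact h1.mono_left nhdsWithin_le_nhds
    · filter_upwards [self_mem_nhdsWithin] with w hw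
      exact mul_ne_zero hζ0 hw
  filter_upwards [ht.eventually (ha ε hε)] with w hw
  rw [norm_mul, hζ, one_mul] at hw
  exact hw

end Pool.Agent.X258.SE
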