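import Pool.Agent.X258.SE.Level
import Pool.Agent.TH143.Fin

/-!
Zero-free functions of moderate growth on a punctured disc, and linear independence of exponentials
of polynomials over the functions of slow growth.
-/

set_option autoImplicit false

namespace Pool.Agent.X258.SE

open Metric Set Filter Topology Pool.Agent.W603.BP Pool.Agent.TH143

/-- meromorphic functions grow slowly -/
theorem slowG_mero {d : ℕ} (hd : 0 < d) {c : ℂ → ℂ} (hc : MeromorphicAt c 0) : SlowG d c := by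
  obtain ⟨C, K, hC, h⟩ := mero_bound hc
  intro ε hε
  have ht : Tendsto (fun w : ℂ => (ε * (‖w‖ ^ d)⁻¹) ^ K * Real.exp (-(ε * (‖w‖ ^ d)⁻¹)))
      (𝓝[≠] 0) (𝓝 0) := by
    have h1 : Tendsto (fun w : ℂ => ε * (‖w‖ ^ d)⁻¹) (𝓝[≠] 0) atTop :=
      (tendsto_inv_pow hd).const_mul_atTop hε
    exact (Real.tendsto_pow_mul_exp_neg_atTop_nhds_zero K).comp h1
  have hlt : ∀ᶠ w in 𝓝[≠] (0 : ℂ), (ε * (‖w‖ ^ d)⁻¹) ^ K * Real.exp (-(ε * (‖w‖ ^ d)⁻¹)) <
      ε ^ K / (C + 1) := ht.eventually_lt_const (by positivity)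
  have hball : ∀ᶠ w in 𝓝[≠] (0 : ℂ), w ∈ Metric.ball (0 : ℂ) 1 :=
    nhdsWithin_le_nhds (Metric.ball_mem_nhds (0 : ℂ) one_pos)
  filter_upwards [h, hlt, hball, self_mem_nhdsWithin] with w h1 h3 h4 h5
  rw [Metric.mem_ball, dist_zero_right] at h4
  have hw : 0 < ‖w‖ := norm_pos_iff.2 h5
  have h6 : ‖w‖ ^ (d * K) ≤ ‖w‖ ^ K := pow_le_pow_of_le_one hw.le h4.le (by nlinarith)
  have hp : 0 < ‖w‖ ^ (d * K) := pow_pos hw _
  have hpK : 0 < ‖w‖ ^ K := pow_pos hw _
  set e := Real.exp (ε * (‖w‖ ^ d)⁻¹) with he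
  have he0 : 0 < e := Real.exp_pos _
  rw [Real.exp_neg, ← he, lt_div_iff₀ (by positivity), mul_pow, inv_pow, ← pow_mul] at h3
  have hεK : 0 < ε ^ K := by positivity
  have h7 : C + 1 < ‖w‖ ^ (d * K) * e := by
    have h8 : ε ^ K * (‖w‖ ^ (d * K))⁻¹ * e⁻¹ * (C + 1) * (‖w‖ ^ (d * K) * e) =
        ε ^ K * (C + 1) := by
      field_simp
    have h9 := mul_lt_mul_of_pos_right h3 (mul_pos hp he0)
    rw [h8] at h9
    exact lt_of_mul_lt_mul_left h9 hεK.le
  have h8 : C < ‖w‖ ^ K * e := by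
    have : ‖w‖ ^ (d * K) * e ≤ ‖w‖ ^ K * e := by gcongr
    linarith
  have h9 : ‖c w‖ * ‖w‖ ^ K < e * ‖w‖ ^ K := by
    calc _ ≤ C := h1
      _ < ‖w‖ ^ K * e := h8
      _ = _ := mul_comm _ _
  exact (lt_of_mul_lt_mul_right h9 hpK.le).le

/-- **Zero-free functions of moderate growth.** -/
theorem unit_form {y : ℂ → ℂ} (hy : AnalyticOnNhd ℂ y (PB 1)) (hne : ∀ w ∈ PB 1, y w ≠ 0)
    (hg : Grow y) : ∃ (g : ℂ → ℂ) (P : Polynomial ℂ), MeromorphicAt g 0 ∧
      ∀ᶠ w in 𝓝[≠] (0 : ℂ), y w = g w * Complex.exp (P.eval w⁻¹) := by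
  obtain ⟨C, K, hC, hgr⟩ := hg
  have hinv : ∀ z : ℂ, 1 < ‖z‖ → z⁻¹ ∈ PB 1 := by
    intro z hz
    have hz0 : z ≠ 0 := by
      rintro rfl
      rw [norm_zero] at hz
      linarith
    refine ⟨inv_ne_zero hz0, ?_⟩
    rw [norm_inv]
    exact inv_lt_one_of_one_lt₀ hz
  obtain ⟨k, q, G, hq, hG, hG0, hF⟩ := birkhoff (F := fun z => y z⁻¹) (r0 := 1) (r1 := 3) (a := 2)
    zero_le_one (by norm_num) (by norm_num) (by
      intro z hz
      have hz0 : z ≠ 0 := by
        rintro rfl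
        have : (1 : ℝ) < ‖(0 : ℂ)‖ := hz
        rw [norm_zero] at this
        linarith
      exact ((hy _ (hinv z hz)).differentiableAt.comp z
        (differentiableAt_inv hz0)).differentiableWithinAt)
    (fun z hz _ => hne _ (hinv z hz))
  have hGne : ∀ z, G z ≠ 0 := by
    intro z
    rcases le_or_gt ‖z‖ 2 with h | h
    · exact hG0 z h
    · intro h0
      have h1 := hF z h
      rw [h0, mul_zero] at h1
      exact hne _ (hinv z (by linarith)) h1
  obtain ⟨δ, hδ, hgrδ⟩ := ev_iff.mp hgr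
  have hqc : ContinuousOn q (closedBall 0 (1 / 3)) := hq.continuousOn.mono (by
    intro w hw
    rw [mem_closedBall, dist_zero_right] at hw
    rw [mem_ball, dist_zero_right]
    norm_num
    linarith)
  obtain ⟨M, hM⟩ := ((isCompact_closedBall (0 : ℂ) (1 / 3)).image_of_continuousOn
    hqc).isBounded.exists_norm_le
  obtain ⟨h, hh, hGh, C', hC'⟩ := log_growth hG hGne (C := C + |(k : ℝ)| + |M|)
    (R0 := max 3 (2 * δ⁻¹)) (p := K + 1) (by positivity) (by
      intro z hz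
      have hz3 : 3 ≤ ‖z‖ := (le_max_left _ _).trans hz
      have hzδ : 2 * δ⁻¹ ≤ ‖z‖ := (le_max_right _ _).trans hz
      have hz0 : z ≠ 0 := by
        rintro rfl
        rw [norm_zero] at hz3
        linarith
      have hzpos : 0 < ‖z‖ := norm_pos_iff.mpr hz0
      have h1 := hF z (by linarith)
      have h2 : ‖y z⁻¹‖ ≤ Real.exp (C * (‖z⁻¹‖ ^ K)⁻¹) := by
        apply hgrδ
        refine ⟨inv_ne_zero hz0, ?_⟩
        rw [norm_inv]
        apply inv_lt_of_inv_lt₀ hδ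
        have := inv_pos.mpr hδ
        linarith
      have h3 : (‖z⁻¹‖ ^ K)⁻¹ = ‖z‖ ^ K := by rw [norm_inv, inv_pow, inv_inv]
      rw [h3] at h2
      have h4 : G z = y z⁻¹ * z ^ (-k) * Complex.exp (-q z⁻¹) := by
        have h5 := zpow_ne_zero k hz0
        have h6 := Complex.exp_ne_zero (q z⁻¹)
        rw [h1, zpow_neg, Complex.exp_neg]
        field_simp
      have h5 : ‖z ^ (-k)‖ ≤ Real.exp (|(k : ℝ)| * ‖z‖) := by
        rw [norm_zpow]
        have h6 : ‖z‖ ^ (-k) = Real.exp (Real.log ‖z‖ * ((-k : ℤ) : ℝ)) := by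
          rw [mul_comm, ← Real.log_zpow, Real.exp_log (by positivity)]
        rw [h6, Real.exp_le_exp]
        have h7 : Real.log ‖z‖ ≤ ‖z‖ := (Real.log_le_sub_one_of_pos hzpos).trans (by linarith)
        have h8 : 0 ≤ Real.log ‖z‖ := Real.log_nonneg (by linarith)
        calc Real.log ‖z‖ * ((-k : ℤ) : ℝ) ≤ Real.log ‖z‖ * |((-k : ℤ) : ℝ)| := by
              gcongr
              exact le_abs_self _
          _ = |(k : ℝ)| * Real.log ‖z‖ := by
              push_cast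
              rw [abs_neg, mul_comm]
          _ ≤ _ := by gcongr
      have h6 : ‖Complex.exp (-q z⁻¹)‖ ≤ Real.exp |M| := by
        rw [Complex.norm_exp, Real.exp_le_exp]
        have h7 : ‖q z⁻¹‖ ≤ M := hM _ (mem_image_of_mem _ (by
          rw [mem_closedBall, dist_zero_right, norm_inv, one_div]
          exact inv_anti₀ (by norm_num) hz3))
        calc (-q z⁻¹).re ≤ ‖-q z⁻¹‖ := Complex.re_le_norm _
          _ = ‖q z⁻¹‖ := norm_neg _
          _ ≤ |M| := h7.trans (le_abs_self M)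
      rw [h4, norm_mul, norm_mul]
      have hzK : ‖z‖ ^ K ≤ ‖z‖ ^ (K + 1) := pow_le_pow_right₀ (by linarith) (Nat.le_succ K)
      have hz1 : ‖z‖ ≤ ‖z‖ ^ (K + 1) := by
        calc ‖z‖ = ‖z‖ ^ 1 := (pow_one _).symm
          _ ≤ _ := pow_le_pow_right₀ (by linarith) (by omega)
      have hz1' : 1 ≤ ‖z‖ ^ (K + 1) := one_le_pow₀ (by linarith)
      calc ‖y z⁻¹‖ * ‖z ^ (-k)‖ * ‖Complex.exp (-q z⁻¹)‖
          ≤ Real.exp (C * ‖z‖ ^ K) * Real.exp (|(k : ℝ)| * ‖z‖) * Real.exp |M| := by gcongr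
        _ = Real.exp (C * ‖z‖ ^ K + |(k : ℝ)| * ‖z‖ + |M|) := by rw [Real.exp_add, Real.exp_add]
        _ ≤ Real.exp ((C + |(k : ℝ)| + |M|) * ‖z‖ ^ (K + 1)) := by
          rw [Real.exp_le_exp]
          have e1 : C * ‖z‖ ^ K ≤ C * ‖z‖ ^ (K + 1) := by gcongr
          have e2 : |(k : ℝ)| * ‖z‖ ≤ |(k : ℝ)| * ‖z‖ ^ (K + 1) := by gcongr
          have e3 : |M| ≤ |M| * ‖z‖ ^ (K + 1) := le_mul_of_one_le_right (abs_nonneg M) hz1'
          linarith)
  obtain ⟨M', hM'⟩ := (isCompact_closedBall (0 : ℂ) 1).exists_bound_of_continuousOn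
    hh.continuous.continuousOn
  obtain ⟨P, hP⟩ := poly_of_growth h hh (|C'| + |M'|) (K + 1) (by
    intro z
    have h3 : (1 : ℝ) ≤ (1 + ‖z‖) ^ (K + 1) := one_le_pow₀ (by linarith [norm_nonneg z])
    rcases le_or_gt 1 ‖z‖ with hz | hz
    · calc ‖h z‖ ≤ C' * ‖z‖ ^ (K + 1) := hC' z hz
        _ ≤ |C'| * (1 + ‖z‖) ^ (K + 1) := by
          apply mul_le_mul (le_abs_self C') _ (by positivity) (abs_nonneg _)
          gcongr
          linarith [norm_nonneg z]
        _ ≤ (|C'| + |M'|) * (1 + ‖z‖) ^ (K + 1) := by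
          gcongr
          linarith [abs_nonneg M']
    · calc ‖h z‖ ≤ M' := hM' z (by simpa using hz.le)
        _ ≤ |M'| := le_abs_self M'
        _ ≤ (|C'| + |M'|) * 1 := by linarith [abs_nonneg C']
        _ ≤ (|C'| + |M'|) * (1 + ‖z‖) ^ (K + 1) := by gcongr)
  have h0mem : (0 : ℂ) ∈ ball (0 : ℂ) (2 : ℝ)⁻¹ := mem_ball_self (by norm_num)
  have hqan : AnalyticAt ℂ q 0 := hq.analyticAt (isOpen_ball.mem_nhds h0mem)
  refine ⟨fun w => w ^ (-k) * Complex.exp (q w), P, ?_, ?_⟩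
  · apply MeromorphicAt.fun_mul
    · exact (MeromorphicAt.id 0).fun_zpow (-k)
    · exact (hqan.cexp).meromorphicAt
  · filter_upwards [PB_mem (show (0 : ℝ) < 1 / 2 by norm_num)] with w hw
    have h1 := hF w⁻¹ (by
      rw [norm_inv]
      have h2 := hw.2
      have h3 : 0 < ‖w‖ := norm_pos_iff.mpr hw.1
      rw [lt_inv_comm₀ (by norm_num) h3]
      norm_num
      linarith)
    simp only [inv_inv] at h1
    rw [h1, hGh, hP, inv_zpow, zpow_neg]

theorem pun_exp (P : Polynomial ℂ) : Pun (fun w => Complex.exp (P.eval w⁻¹)) := by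
  filter_upwards [self_mem_nhdsWithin] with w hw
  have h1 : AnalyticAt ℂ (fun z : ℂ => P.eval z) (w⁻¹) := AnalyticAt.aeval_polynomial
    (f := fun z : ℂ => z) analyticAt_id P
  exact (AnalyticAt.comp (g := fun z : ℂ => P.eval z) (f := fun w : ℂ => w⁻¹) h1
    (analyticAt_inv hw)).cexp

/-- **Linear independence of the exponentials of the polynomials in `1 / w` over the functions
of slow growth.** -/
theorem indep {d : ℕ} (hd : 0 < d) {ι : Type} (D : ℕ) :
    ∀ (s : Finset ι) (P : ι → Polynomial ℂ) (b : ι → ℂ → ℂ),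
      (∀ i ∈ s, ∀ n, D < n → (P i).coeff n = 0) →
      (∀ i ∈ s, ∀ j ∈ s, i ≠ j → ∃ n, d ≤ n ∧ (P i).coeff n ≠ (P j).coeff n) →
      (∀ i ∈ s, Pun (b i)) → (∀ i ∈ s, SlowG d (b i)) →
      (∀ᶠ w in 𝓝[≠] (0 : ℂ), ∑ i ∈ s, b i w * Complex.exp ((P i).eval w⁻¹) = 0) →
      ∀ i ∈ s, ∀ᶠ w in 𝓝[≠] (0 : ℂ), b i w = 0 := by
  classical
  have hsmall : ∀ (D : ℕ), D < d → ∀ (s : Finset ι) (P : ι → Polynomial ℂ) (b : ι → ℂ → ℂ),
      (∀ i ∈ s, ∀ n, D < n → (P i).coeff n = 0) →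
      (∀ i ∈ s, ∀ j ∈ s, i ≠ j → ∃ n, d ≤ n ∧ (P i).coeff n ≠ (P j).coeff n) →
      (∀ᶠ w in 𝓝[≠] (0 : ℂ), ∑ i ∈ s, b i w * Complex.exp ((P i).eval w⁻¹) = 0) →
      ∀ i ∈ s, ∀ᶠ w in 𝓝[≠] (0 : ℂ), b i w = 0 := by
    intro D hD s P b hP hdist hrel i hi
    have hs : s = {i} := by
      ext j
      rw [Finset.mem_singleton]
      constructor
      · intro hj
        by_contra hji
        obtain ⟨n, hn, hne⟩ := hdist j hj i hi hji
        apply hne
        rw [hP j hj n (by omega), hP i hi n (by omega)]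
      · rintro rfl
        exact hi
    filter_upwards [hrel] with w hw
    rw [hs, Finset.sum_singleton] at hw
    exact (mul_eq_zero.1 hw).resolve_right (Complex.exp_ne_zero _)
  induction D with
  | zero =>
    intro s P b hP hdist _ _ hrel
    exact hsmall 0 hd s P b hP hdist hrel
  | succ D ih =>
    intro s P b hP hdist hp hs hrel i hi
    by_cases hDd : D + 1 < d
    · exact hsmall (D + 1) hDd s P b hP hdist hrel i hi
    push Not at hDd
    set P' : ℂ → ι → Polynomial ℂ := fun l i => P i - Polynomial.monomial (D + 1) l with hP'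
    set c : ℂ → ℂ → ℂ := fun l w => ∑ i ∈ s with (P i).coeff (D + 1) = l,
      b i w * Complex.exp ((P' l i).eval w⁻¹) with hc
    set T : Finset ℂ := s.image fun i => (P i).coeff (D + 1) with hT
    have hcP : ∀ l ∈ T, Pun (c l) := fun l _ => Pun.sum _ fun i hi =>
      (hp i (Finset.mem_filter.1 hi).1).mul (pun_exp _)
    have hcoef : ∀ l, ∀ i ∈ s, (P i).coeff (D + 1) = l → ∀ n, D < n → (P' l i).coeff n = 0 := by
      intro l i hi hl n hn
      rw [hP', Polynomial.coeff_sub, Polynomial.coeff_monomial]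
      by_cases hn' : D + 1 = n
      · rw [if_pos hn', ← hn', hl, sub_self]
      · rw [if_neg hn', hP i hi n (by omega), sub_zero]
    have hcS : ∀ l ∈ T, SlowG (D + 1) (c l) := fun l _ => SlowG.sum (by omega) _ fun i hi =>
      ((hs i (Finset.mem_filter.1 hi).1).mono hDd).mul
        (slowG_exp _ fun n hn => hcoef l i (Finset.mem_filter.1 hi).1
          (Finset.mem_filter.1 hi).2 n (by omega))
    have hlev := level (d := D + 1) (by omega) T c hcP hcS (by
      filter_upwards [hrel] with w hw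
      rw [← hw]
      have h1 : ∀ l ∈ T, c l w * Complex.exp (l * (w⁻¹) ^ (D + 1)) =
          ∑ i ∈ s with (P i).coeff (D + 1) = l, b i w * Complex.exp ((P i).eval w⁻¹) := by
        intro l _
        rw [hc, Finset.sum_mul]
        refine Finset.sum_congr rfl fun i _ => ?_
        rw [mul_assoc, ← Complex.exp_add, hP']
        simp only [Polynomial.eval_sub, Polynomial.eval_monomial, sub_add_cancel]
      rw [Finset.sum_congr rfl h1]
      exact Finset.sum_fiberwise_of_maps_to (fun i hi => Finset.mem_image_of_mem _ hi) _)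
    have hl := hlev _ (Finset.mem_image_of_mem (fun i => (P i).coeff (D + 1)) hi)
    refine ih (s.filter fun j => (P j).coeff (D + 1) = (P i).coeff (D + 1))
      (P' ((P i).coeff (D + 1))) b ?_ ?_ ?_ ?_ hl i (Finset.mem_filter.2 ⟨hi, rfl⟩)
    · intro j hj
      exact hcoef _ j (Finset.mem_filter.1 hj).1 (Finset.mem_filter.1 hj).2
    · intro j hj k hk hjk
      obtain ⟨n, hn, hne⟩ := hdist j (Finset.mem_filter.1 hj).1 k (Finset.mem_filter.1 hk).1 hjk
      refine ⟨n, hn, ?_⟩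
      rw [hP', Polynomial.coeff_sub, Polynomial.coeff_sub]
      exact fun h => hne (sub_left_injective h)
    · exact fun j hj => hp j (Finset.mem_filter.1 hj).1
    · exact fun j hj => hs j (Finset.mem_filter.1 hj).1

end Pool.Agent.X258.SE
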